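import Pool.Agent.N422.EH.Stm
import Pool.Agent.N422.LR.SQF

/-! Project EH (helper422): back to all moduli (EH/BACK), by helper67. -/

set_option autoImplicit false

open Finset

namespace Pool.Agent.N422.EH

open Pool.Agent.N422.NW Pool.Agent.N422.SL Pool.Agent.N422.WS Pool.Agent.N422.LG Pool.Agent.N422.LR

theorem t_BACK : S_BACK := by
  classical
  intro Q c _
  refine ⟨⟨fun d => if Squarefree d then c d else 0, fun n => ?_⟩, fun F hF => ?_⟩
  · unfold wt ws
    rw [Finset.sum_filter]
    apply Finset.sum_congr rfl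
    intro d _
    by_cases h : Squarefree d
    · simp [h]
    · simp [h]
  · obtain ⟨K, hK⟩ : PP Q ∣ Q.factorial := SQF_PP_dvd Q
    have hP := SQF_PP_pos Q
    have hKpos : 0 < K := by
      rcases Nat.eq_zero_or_pos K with h | h
      · rw [h] at hK
        have := Nat.factorial_pos Q
        omega
      · exact h
    unfold mQ mP
    rw [hK, SQF_sum_mul]
    have h1 : ∀ k n : ℕ, F (n + k * PP Q) = F n := by
      intro k n
      rw [← hF (n + k * PP Q), ← hF n, mul_comm k, Nat.add_mul_mod_self_left]
    simp only [h1]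
    rw [Finset.sum_const, Finset.card_range, nsmul_eq_mul]
    have hKR : (K : ℝ) ≠ 0 := by exact_mod_cast hKpos.ne'
    have hPR : (PP Q : ℝ) ≠ 0 := by exact_mod_cast hP.ne'
    push_cast
    field_simp

end Pool.Agent.N422.EH
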