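import Pool.Agent.N422.EH.Stm

/-! Project EH (helper422): real weights in the modulus (EH/EHC), by helper31. -/

set_option autoImplicit false

open Finset

namespace Pool.Agent.N422.EH

open Pool.Agent.N422.NW Pool.Agent.N422.SL Pool.Agent.N422.WS Pool.Agent.N422.LG Pool.Agent.N422.LR

/-- the change of variables at `p` -/
def EHC_tau (a p u : ℕ) : ℕ := ((u : ZMod p)⁻¹ + (a : ZMod p)⁻¹).val

theorem EHC_bij (a p : ℕ) (hp : p.Prime) :
    Set.BijOn (EHC_tau a p) (Set.Iio p) (Set.Iio p) := by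
  have := Fact.mk hp
  refine ⟨fun u _ => ZMod.val_lt _, ?_, ?_⟩
  · intro u hu v hv h
    have h1 : (u : ZMod p)⁻¹ + (a : ZMod p)⁻¹ = (v : ZMod p)⁻¹ + (a : ZMod p)⁻¹ :=
      ZMod.val_injective p h
    have h2 : (u : ZMod p) = v := inv_injective (add_right_cancel h1)
    have h3 := (ZMod.natCast_eq_natCast_iff' u v p).1 h2
    rwa [Nat.mod_eq_of_lt hu, Nat.mod_eq_of_lt hv] at h3
  · intro w hw
    refine ⟨(((w : ZMod p) - (a : ZMod p)⁻¹)⁻¹).val, ZMod.val_lt _, ?_⟩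
    unfold EHC_tau
    rw [ZMod.natCast_zmod_val, inv_inv, sub_add_cancel, ZMod.val_natCast, Nat.mod_eq_of_lt hw]

theorem EHC_T (a Q : ℕ) : ∃ T : ℕ → ℕ, ∀ n, ∀ p ∈ (Icc 1 Q).filter Nat.Prime,
    T n % p = EHC_tau a p (n % p) := by
  have h : ∀ n, ∃ k : ℕ, ∀ p ∈ (Icc 1 Q).filter Nat.Prime, k % p = EHC_tau a p (n % p) := by
    intro n
    obtain ⟨k, hk⟩ := Nat.chineseRemainderOfFinset (fun p => EHC_tau a p (n % p)) id
      ((Icc 1 Q).filter Nat.Prime) (fun p hp => (mem_filter.1 hp).2.ne_zero)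
      (fun p hp q hq hpq => (Nat.coprime_primes (mem_filter.1 hp).2 (mem_filter.1 hq).2).2 hpq)
    refine ⟨k, fun p hp => ?_⟩
    have := Fact.mk (mem_filter.1 hp).2
    have h1 : k % p = EHC_tau a p (n % p) % p := hk p hp
    rw [h1]
    exact Nat.mod_eq_of_lt (ZMod.val_lt _)
  choose T hT using h
  exact ⟨T, hT⟩

theorem EHC_key (a p n j t : ℕ) (hp : p.Prime) (ha : ¬ p ∣ a) (hn : ¬ p ∣ n)
    (h : p ∣ a + (1 + a * j) * n) (ht : t % p = EHC_tau a p (n % p)) : p ∣ t + j := by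
  have := Fact.mk hp
  have ha' : (a : ZMod p) ≠ 0 := by rwa [Ne, ZMod.natCast_eq_zero_iff]
  have hn' : (n : ZMod p) ≠ 0 := by rwa [Ne, ZMod.natCast_eq_zero_iff]
  have h1 : (a : ZMod p) + (1 + a * j) * n = 0 := by
    have := (ZMod.natCast_eq_zero_iff _ p).2 h
    push_cast at this
    exact this
  have h2 : (t : ZMod p) = (n : ZMod p)⁻¹ + (a : ZMod p)⁻¹ := by
    have h3 : ((t % p : ℕ) : ZMod p) = ((EHC_tau a p (n % p) : ℕ) : ZMod p) := by rw [ht]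
    rw [ZMod.natCast_mod] at h3
    rw [h3]
    unfold EHC_tau
    rw [ZMod.natCast_zmod_val, ZMod.natCast_mod]
  rw [← ZMod.natCast_eq_zero_iff]
  push_cast
  rw [h2]
  field_simp
  linear_combination h1

theorem EHC_dvd (Q p : ℕ) (hp : p ∈ (Icc 1 Q).filter Nat.Prime) : p ∣ PP Q :=
  Finset.dvd_prod_of_mem (fun p => p) hp

theorem EHC_sqf (Q d : ℕ) (hd : Squarefree d) (hQ : d ≤ Q) : d ∣ PP Q := by
  rw [← Nat.prod_primeFactors_of_squarefree hd]
  refine Finset.prod_dvd_prod_of_subset _ _ _ fun p hp => ?_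
  have h1 := Nat.prime_of_mem_primeFactors hp
  have h2 := Nat.le_of_dvd (Nat.pos_of_ne_zero hd.ne_zero) (Nat.dvd_of_mem_primeFactors hp)
  exact mem_filter.2 ⟨mem_Icc.2 ⟨h1.one_lt.le, h2.trans hQ⟩, h1⟩

theorem EHC_ws (Q : ℕ) (c : ℕ → ℕ → ℝ) (n : ℕ) : ws Q c (n % PP Q) = ws Q c n := by
  unfold ws
  refine Finset.sum_congr rfl fun d hd => ?_
  obtain ⟨h1, h2⟩ := mem_filter.1 hd
  rw [Nat.mod_mod_of_dvd _ (EHC_sqf Q d h2 (mem_Icc.1 h1).2)]

theorem EHC_mod (m p x y : ℕ) (h : x % m = y % m) (hp : p ∣ m) : x ≡ y [MOD p] :=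
  Nat.ModEq.of_dvd hp h

theorem EHC_U (e ε : ℝ) (he : 2 ≤ e) (hε : 0 < ε) (a : ℕ) (ha : 1 ≤ a) :
    ∃ Q0 : ℕ, ∀ Q : ℕ, Q0 ≤ Q → ∀ U : ℕ, Real.log Q ^ (e + ε) ≤ U →
      Real.log Q ^ (e + ε / 2) ≤ (((U - 1) / a : ℕ) : ℝ) := by
  have hlog : Filter.Tendsto (fun Q : ℕ => Real.log Q) Filter.atTop Filter.atTop :=
    Real.tendsto_log_atTop.comp tendsto_natCast_atTop_atTop
  have h1 := (tendsto_rpow_atTop (show 0 < ε / 2 by positivity)).comp hlog
  obtain ⟨Q0, hQ0⟩ := Filter.eventually_atTop.1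
    ((h1.eventually_ge_atTop (2 * (a : ℝ))).and (hlog.eventually_ge_atTop 1))
  refine ⟨Q0, fun Q hQ U hU => ?_⟩
  obtain ⟨h2, h3⟩ := hQ0 Q hQ
  simp only [Function.comp_apply] at h2
  have hx0 : (0 : ℝ) < Real.log Q := by linarith
  have h4 : Real.log Q ^ (e + ε) = Real.log Q ^ (e + ε / 2) * Real.log Q ^ (ε / 2) := by
    rw [← Real.rpow_add hx0]
    congr 1
    ring
  have h5 : 1 ≤ Real.log Q ^ (e + ε / 2) := Real.one_le_rpow h3 (by positivity)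
  rw [h4] at hU
  have ha0 : (1 : ℝ) ≤ a := by exact_mod_cast ha
  have h6 : Real.log Q ^ (e + ε / 2) * (2 * a) ≤ U :=
    (mul_le_mul_of_nonneg_left h2 (by linarith)).trans hU
  have h7 : U ≤ a * ((U - 1) / a) + a := by
    have h8 := Nat.div_add_mod (U - 1) a
    have h9 := Nat.mod_lt (U - 1) (by omega : 0 < a)
    omega
  have h8 : (U : ℝ) ≤ a * (((U - 1) / a : ℕ) : ℝ) + a := by exact_mod_cast h7
  have h9 : (a : ℝ) * Real.log Q ^ (e + ε / 2) ≤ a * (((U - 1) / a : ℕ) : ℝ) := by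
    nlinarith
  exact le_of_mul_le_mul_left h9 (by linarith)

/-- **EHC** -/
theorem t_EHC (e : ℝ) (he : 2 ≤ e) (h0 : LR.S_FX e) (h1 : S_SQF2) (h2 : S_BACK) (h3 : S_PERM) :
    S_EHC e := by
  intro ε hε a ha
  obtain ⟨Q1, hQ1⟩ := h0 (ε / 2) (by positivity)
  obtain ⟨Q2, hQ2⟩ := EHC_U e ε he hε a ha
  refine ⟨max (max Q1 Q2) a, fun Q hQ U hU c hc1 hc2 => ?_⟩
  have hQa : a ≤ Q := le_trans (le_max_right _ _) hQ
  have hQ1' : 1 ≤ Q := ha.trans hQa
  have hU' := hQ2 Q (le_trans (le_trans (le_max_right _ _) (le_max_left _ _)) hQ) U hU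
  obtain ⟨c1, A1, -, B1⟩ := h1 Q c hQ1'
  obtain ⟨T, hT⟩ := EHC_T a Q
  obtain ⟨c2, A2, B2⟩ := h3 Q c1 (EHC_tau a) T hQ1' (fun p hp => EHC_bij a p (mem_filter.1 hp).2) hT
  obtain ⟨⟨c3, hc3⟩, B3⟩ := h2 Q c2 hQ1'
  -- the set on which the weight is not positive
  have hneg : ∀ n ∈ {n : ℕ | ¬ Nat.Coprime n a ∨ (SE a U Q n).Nonempty}, ws Q c1 n ≤ 0 := by
    refine B1 _ (fun n => ?_) (fun n hn => ?_)
    · have e1 : ∀ p ∈ (Icc 1 Q).filter Nat.Prime, n ≡ n % PP Q [MOD p] := fun p hp =>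
        EHC_mod (PP Q) p _ _ (Nat.mod_mod _ _).symm (EHC_dvd Q p hp)
      have e2 : Nat.Coprime n a ↔ Nat.Coprime (n % PP Q) a := by
        have key : ∀ x y : ℕ, (∀ p ∈ (Icc 1 Q).filter Nat.Prime, x ≡ y [MOD p]) →
            Nat.Coprime x a → Nat.Coprime y a := by
          intro x y hxy hx
          by_contra hcon
          obtain ⟨p, hp, hpy, hpa⟩ := Nat.Prime.not_coprime_iff_dvd.1 hcon
          have hpQ : p ∈ (Icc 1 Q).filter Nat.Prime :=
            mem_filter.2 ⟨mem_Icc.2 ⟨hp.one_lt.le, (Nat.le_of_dvd (by omega) hpa).trans hQa⟩, hp⟩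
          have hpx : p ∣ x := ((hxy p hpQ).dvd_iff dvd_rfl).2 hpy
          exact Nat.Prime.not_coprime_iff_dvd.2 ⟨p, hp, hpx, hpa⟩ hx
        exact ⟨key _ _ e1, key _ _ fun p hp => (e1 p hp).symm⟩
      have e3 : SE a U Q n = SE a U Q (n % PP Q) := by
        unfold SE
        refine Finset.filter_congr fun h _ => forall₂_congr fun p hp => ?_
        exact not_congr (((((e1 p hp).mul_left h).add_left a)).dvd_iff dvd_rfl)
      simp only [Set.mem_ofPred_eq]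
      rw [e2, e3]
    · rcases hn with hn | hn
      · exact hc1 n hn
      · exact hc2 n hn
  have hmain : mQ Q (wt Q c3) ≤ 0 := by
    refine hQ1 Q (le_trans (le_trans (le_max_left _ _) (le_max_left _ _)) hQ) _ hU' c3 ?_
    rintro n' ⟨j, hj⟩
    obtain ⟨hj1, hj2⟩ := mem_filter.1 hj
    obtain ⟨hj3, hj4⟩ := mem_Icc.1 hj1
    obtain ⟨n, hn, hn'⟩ := A2 n'
    rw [hc3, hn']
    apply hneg
    by_cases hco : Nat.Coprime n a
    swap
    · exact Or.inl hco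
    refine Or.inr ⟨1 + a * j, mem_filter.2 ⟨mem_Icc.2 ⟨by omega, ?_⟩, fun p hp hdvd => ?_⟩⟩
    · have h5 : a * j ≤ a * ((U - 1) / a) := Nat.mul_le_mul_left a hj4
      have h6 : a * ((U - 1) / a) ≤ U - 1 := Nat.mul_div_le _ _
      have h7 : 1 ≤ a * j := Nat.mul_pos (by omega) (by omega)
      omega
    · have hpp := (mem_filter.1 hp).2
      by_cases hpa : p ∣ a
      · have h5 : p ∣ (1 + a * j) * n := (Nat.dvd_add_right hpa).1 hdvd
        rcases hpp.dvd_mul.1 h5 with h6 | h6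
        · have h7 : p ∣ 1 := (Nat.dvd_add_left (hpa.mul_right j)).1 h6
          exact hpp.one_lt.ne' (Nat.dvd_one.1 h7)
        · exact Nat.Prime.not_coprime_iff_dvd.2 ⟨p, hpp, h6, hpa⟩ hco
      · by_cases hpn : p ∣ n
        · exact hpa ((Nat.dvd_add_left (hpn.mul_left _)).1 hdvd)
        · have h5 := EHC_key a p n j (T n) hpp hpa hpn hdvd (hT n p hp)
          have h6 : T n ≡ n' [MOD p] := EHC_mod (PP Q) p _ _ hn (EHC_dvd Q p hp)
          exact hj2 p hp (((h6.add_right j).dvd_iff dvd_rfl).1 h5)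
  have e4 : mQ Q (wt Q c3) = mP Q (ws Q c2) := by
    have : wt Q c3 = ws Q c2 := funext hc3
    rw [this, B3 _ (EHC_ws Q c2)]
  have e5 := B2 (fun _ => 1) fun _ => rfl
  have e6 := A1 (fun _ => 1) fun _ => rfl
  simp only [mul_one] at e5 e6
  have e7 : mP Q (ws Q c2) = mQ Q (wt Q c) := e5.trans e6
  rw [← e7, ← e4]
  exact hmain

end Pool.Agent.N422.EH
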