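import Pool.Agent.N422.EH.Stm

/-! Project EH (helper422): change of variables modulo squarefree numbers. -/

set_option autoImplicit false

open Finset

namespace Pool.Agent.N422.EH

open Pool.Agent.N422.NW Pool.Agent.N422.SL Pool.Agent.N422.WS Pool.Agent.N422.LG Pool.Agent.N422.LR

theorem PERM_mod {s : Finset ℕ} (hs : ∀ p ∈ s, p.Prime) (a b : ℕ) :
    a % (∏ p ∈ s, p) = b % (∏ p ∈ s, p) ↔ ∀ p ∈ s, a % p = b % p := by
  have key : ∀ a b : ℕ, a ≤ b → (∀ p ∈ s, a % p = b % p) →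
      a % (∏ p ∈ s, p) = b % (∏ p ∈ s, p) := by
    intro a b hab h
    exact (Nat.modEq_iff_dvd' hab).2 (Finset.prod_primes_dvd _ (fun p hp => (hs p hp).prime)
      fun p hp => (Nat.modEq_iff_dvd' hab).1 (h p hp))
  constructor
  · intro h p hp
    exact Nat.ModEq.of_dvd (Finset.dvd_prod_of_mem _ hp) h
  · intro h
    rcases le_total a b with hab | hab
    · exact key a b hab h
    · exact (key b a hab fun p hp => (h p hp).symm).symm

/-- change of variables (EH/PERM) -/
theorem t_PERM : S_PERM := by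
  classical
  intro Q c τ T _ hτ hT
  have hPr : ∀ p ∈ (Icc 1 Q).filter Nat.Prime, p.Prime := fun p hp => (Finset.mem_filter.1 hp).2
  -- `T` induces an injection modulo squarefree numbers
  have hinj : ∀ s : Finset ℕ, s ⊆ (Icc 1 Q).filter Nat.Prime → ∀ n m : ℕ,
      T n % (∏ p ∈ s, p) = T m % (∏ p ∈ s, p) → n % (∏ p ∈ s, p) = m % (∏ p ∈ s, p) := by
    intro s hs n m h
    rw [PERM_mod fun p hp => hPr p (hs hp)] at h ⊢
    intro p hp
    have h1 := h p hp
    rw [hT n p (hs hp), hT m p (hs hp)] at h1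
    have hp0 : 0 < p := (hPr p (hs hp)).pos
    exact (hτ p (hs hp)).injOn (Nat.mod_lt n hp0) (Nat.mod_lt m hp0) h1
  have hcon : ∀ s : Finset ℕ, s ⊆ (Icc 1 Q).filter Nat.Prime → ∀ n m : ℕ,
      n % (∏ p ∈ s, p) = m % (∏ p ∈ s, p) → T n % (∏ p ∈ s, p) = T m % (∏ p ∈ s, p) := by
    intro s hs n m h
    rw [PERM_mod fun p hp => hPr p (hs hp)] at h ⊢
    intro p hp
    rw [hT n p (hs hp), hT m p (hs hp), h p hp]
  have hP0 : 0 < PP Q := Finset.prod_pos fun p hp => (hPr p hp).pos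
  have hinjP : ∀ n m : ℕ, T n % PP Q = T m % PP Q → n % PP Q = m % PP Q :=
    hinj _ (Finset.Subset.refl _)
  have hmaps : ∀ n ∈ range (PP Q), T n % PP Q ∈ range (PP Q) := fun n _ =>
    Finset.mem_range.2 (Nat.mod_lt _ hP0)
  have hinjon : Set.InjOn (fun n => T n % PP Q) (range (PP Q) : Set ℕ) := by
    intro n hn m hm h
    have h1 := hinjP n m h
    rwa [Nat.mod_eq_of_lt (Finset.mem_range.1 hn), Nat.mod_eq_of_lt (Finset.mem_range.1 hm)] at h1
  have hsurj : Set.SurjOn (fun n => T n % PP Q) (range (PP Q) : Set ℕ) (range (PP Q) : Set ℕ) := by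
    have h1 : (range (PP Q)).image (fun n => T n % PP Q) = range (PP Q) := by
      apply Finset.eq_of_subset_of_card_le
      · intro m hm
        obtain ⟨n, hn, rfl⟩ := Finset.mem_image.1 hm
        exact hmaps n hn
      · rw [Finset.card_image_of_injOn hinjon]
    intro m hm
    have h2 : m ∈ (range (PP Q)).image (fun n => T n % PP Q) := by rw [h1]; exact hm
    obtain ⟨n, hn, h3⟩ := Finset.mem_image.1 h2
    exact ⟨n, hn, h3⟩
  have hex : ∀ n' : ℕ, ∃ n : ℕ, n < PP Q ∧ T n % PP Q = n' % PP Q := by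
    intro n'
    obtain ⟨n, hn, h⟩ := hsurj (show n' % PP Q ∈ (range (PP Q) : Set ℕ) from
      Finset.mem_coe.2 (Finset.mem_range.2 (Nat.mod_lt _ hP0)))
    exact ⟨n, Finset.mem_range.1 hn, h⟩
  choose S hS1 hS2 using hex
  have hws : ∀ n', ws Q (fun d u => c d (S u % d)) n' = ws Q c (S n') := by
    intro n'
    refine Finset.sum_congr rfl fun d hd => ?_
    obtain ⟨hd1, hd2⟩ := Finset.mem_filter.1 hd
    have hdQ := Finset.mem_Icc.1 hd1
    have hsub : d.primeFactors ⊆ (Icc 1 Q).filter Nat.Prime := by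
      intro p hp
      have hpp := Nat.prime_of_mem_primeFactors hp
      have := Nat.le_of_mem_primeFactors hp
      exact Finset.mem_filter.2 ⟨Finset.mem_Icc.2 ⟨hpp.one_le, this.trans hdQ.2⟩, hpp⟩
    have hprod : ∏ p ∈ d.primeFactors, p = d := Nat.prod_primeFactors_of_squarefree hd2
    have hdvd : d ∣ PP Q := by
      rw [← hprod]
      exact Finset.prod_dvd_prod_of_subset _ _ _ hsub
    have h1 : T (S (n' % d)) % d = n' % d := by
      have h2 : T (S (n' % d)) % d = (n' % d) % d := Nat.ModEq.of_dvd hdvd (hS2 (n' % d))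
      rwa [Nat.mod_mod] at h2
    have h3 : T (S n') % d = n' % d := Nat.ModEq.of_dvd hdvd (hS2 n')
    have h4 := hinj _ hsub (S (n' % d)) (S n')
    rw [hprod] at h4
    show c d (S (n' % d) % d) = c d (S n' % d)
    rw [h4 (h1.trans h3.symm)]
  refine ⟨fun d u => c d (S u % d), fun n' => ⟨S n', hS2 n', hws n'⟩, ?_⟩
  intro F hF
  rw [mP, mP]
  congr 1
  symm
  refine Finset.sum_nbij (fun n => T n % PP Q) hmaps hinjon hsurj ?_
  intro n hn
  have h1 : S (T n % PP Q) = n := by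
    have h2 := hS2 (T n % PP Q)
    rw [Nat.mod_mod] at h2
    have h3 := hinjP _ _ h2
    rwa [Nat.mod_eq_of_lt (hS1 _), Nat.mod_eq_of_lt (Finset.mem_range.1 hn)] at h3
  show ws Q c n * F (T n) = ws Q (fun d u => c d (S u % d)) (T n % PP Q) * F (T n % PP Q)
  rw [hws, h1, hF]

end Pool.Agent.N422.EH
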