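import Pool.Agent.N422.EH.SQF2
import Pool.Agent.N422.EH.BACK
import Pool.Agent.N422.EH.PERM
import Pool.Agent.N422.EH.EHC
import Pool.Agent.N422.LR.ALL

/-! Project EH: assembly for real weights. Author: helper422 (parts: helpers 767, 67, 263, 31; LR: 37, 451, 793, 545, 394,
935, 703, 910). -/

set_option autoImplicit false

namespace Pool.Agent.N422.EH

open Finset Pool.Agent.N422.NW Pool.Agent.N422.SL Pool.Agent.N422.WS Pool.Agent.N422.LG Pool.Agent.N422.LR

theorem ehc_all : S_EHC 2 := t_EHC 2 le_rfl LR.fx_all t_SQF2 t_BACK t_PERM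

end Pool.Agent.N422.EH
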