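import Pool.Agent.N422.EH.Stm

/-! Project EH (helper422), job EH/EHF (helper722): the law for progressions. -/

set_option autoImplicit false

open Finset

namespace Pool.Agent.N422.EH

open Pool.Agent.N422.NW Pool.Agent.N422.SL Pool.Agent.N422.WS Pool.Agent.N422.LG Pool.Agent.N422.LR

/-! Estimates copied from LG/FIN (helper81) and LG/FINU (helper628). -/

theorem EHF_FIN_mono (Q : ℕ) {F G : ℕ → ℝ} (h : ∀ n, F n ≤ G n) : mQ Q F ≤ mQ Q G := by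
  unfold mQ
  exact div_le_div_of_nonneg_right (Finset.sum_le_sum fun n _ => h n) (Nat.cast_nonneg _)

theorem EHF_FIN_smul (Q : ℕ) (a : ℝ) (F : ℕ → ℝ) : mQ Q (fun n => a * F n) = a * mQ Q F := by
  unfold mQ
  rw [← Finset.mul_sum, mul_div_assoc]

theorem EHF_FIN_nonneg (Q : ℕ) {F : ℕ → ℝ} (h : ∀ n, 0 ≤ F n) : 0 ≤ mQ Q F := by
  unfold mQ
  exact div_nonneg (Finset.sum_nonneg fun n _ => h n) (Nat.cast_nonneg _)

theorem EHF_FIN_fac {p : ℕ} (hp : p.Prime) : 0 ≤ 1 - 1 / (p : ℝ) := by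
  have h1 : (1 : ℝ) ≤ p := by exact_mod_cast hp.one_lt.le
  have : 1 / (p : ℝ) ≤ 1 := by
    rw [div_le_one (by linarith)]
    exact h1
  linarith

theorem EHF_FIN_VV_nonneg (y : ℕ) : 0 ≤ VV y :=
  Finset.prod_nonneg fun _ hp => EHF_FIN_fac (Finset.mem_filter.1 hp).2

/-- `VV Q ≤ exp(-D) VV y` -/
theorem EHF_FIN_VV (y Q : ℕ) (h : y ≤ Q) :
    VV Q ≤ Real.exp (-∑ p ∈ (Icc 1 Q).filter (fun p : ℕ => p.Prime ∧ y < p), 1 / (p : ℝ)) * VV y := by
  have h1 : (Icc 1 Q).filter Nat.Prime =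
      (Icc 1 Q).filter (fun p : ℕ => p.Prime ∧ y < p) ∪ (Icc 1 y).filter Nat.Prime := by
    ext p
    simp only [Finset.mem_filter, Finset.mem_union, Finset.mem_Icc]
    constructor
    · rintro ⟨⟨h1, h2⟩, h3⟩
      by_cases h4 : y < p
      · exact Or.inl ⟨⟨h1, h2⟩, h3, h4⟩
      · exact Or.inr ⟨⟨h1, by omega⟩, h3⟩
    · rintro (⟨⟨h1, h2⟩, h3, h4⟩ | ⟨⟨h1, h2⟩, h3⟩)
      · exact ⟨⟨h1, h2⟩, h3⟩
      · exact ⟨⟨h1, by omega⟩, h3⟩
  have h2 : Disjoint ((Icc 1 Q).filter (fun p : ℕ => p.Prime ∧ y < p)) ((Icc 1 y).filter Nat.Prime) := by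
    rw [Finset.disjoint_left]
    intro p hp hq
    simp only [Finset.mem_filter, Finset.mem_Icc] at hp hq
    omega
  unfold VV
  rw [h1, Finset.prod_union h2]
  refine mul_le_mul_of_nonneg_right ?_ (EHF_FIN_VV_nonneg y)
  rw [← Finset.sum_neg_distrib, Real.exp_sum]
  refine Finset.prod_le_prod (fun p hp => EHF_FIN_fac (Finset.mem_filter.1 hp).2.1) fun p _ => ?_
  have := Real.add_one_le_exp (-(1 / (p : ℝ)))
  linarith

theorem EHF_FIN_ev (y0 : ℕ) (C A : ℝ) (hA : 0 ≤ A) : ∀ᶠ Q : ℕ in Filter.atTop, 3 ≤ Q ∧ 3 ≤ Real.log Q ∧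
    (y0 : ℝ) ≤ Real.log Q ∧ C ≤ Real.log (Real.log Q) ∧
    A * Real.log (Real.log Q) ^ 3 ≤ Real.log Q ∧ Real.log Q ^ 5 ≤ Q := by
  have t1 : Filter.Tendsto (fun Q : ℕ => (Q : ℝ)) Filter.atTop Filter.atTop := tendsto_natCast_atTop_atTop
  have t2 : Filter.Tendsto (fun Q : ℕ => Real.log Q) Filter.atTop Filter.atTop :=
    Real.tendsto_log_atTop.comp t1
  have t3 : Filter.Tendsto (fun Q : ℕ => Real.log (Real.log Q)) Filter.atTop Filter.atTop :=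
    Real.tendsto_log_atTop.comp t2
  have e5 : ∀ᶠ x : ℝ in Filter.atTop, A * Real.log x ^ 3 ≤ x := by
    have h := (Real.isLittleO_pow_log_id_atTop (n := 3)).def
      (show (0 : ℝ) < 1 / (A + 1) by positivity)
    filter_upwards [h, Filter.eventually_ge_atTop (1 : ℝ)] with x hx hx1
    have hl : 0 ≤ Real.log x := Real.log_nonneg hx1
    rw [Real.norm_of_nonneg (by positivity), id, Real.norm_of_nonneg (by linarith)] at hx
    have h3 : A * (1 / (A + 1) * x) ≤ x := by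
      have : A * (1 / (A + 1)) ≤ 1 := by
        rw [mul_one_div, div_le_one (by linarith)]
        linarith
      nlinarith
    exact (mul_le_mul_of_nonneg_left hx hA).trans h3
  have e6 : ∀ᶠ x : ℝ in Filter.atTop, Real.log x ^ 5 ≤ x := by
    have h := (Real.isLittleO_pow_log_id_atTop (n := 5)).def
      (show (0 : ℝ) < 1 by norm_num)
    filter_upwards [h, Filter.eventually_ge_atTop (1 : ℝ)] with x hx hx1
    have hl : 0 ≤ Real.log x := Real.log_nonneg hx1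
    rw [Real.norm_of_nonneg (by positivity), id, Real.norm_of_nonneg (by linarith), one_mul] at hx
    exact hx
  filter_upwards [Filter.eventually_ge_atTop 3, t2.eventually_ge_atTop 3, t2.eventually_ge_atTop (y0 : ℝ),
    t3.eventually_ge_atTop C, t2.eventually e5, t1.eventually e6] with Q a1 a2 a3 a4 a5 a6
  exact ⟨a1, a2, a3, a4, a5, a6⟩

theorem EHF_FINU_fac {x : ℝ} (_h0 : 0 ≤ x) (h1 : x ≤ 1 / 2) : Real.exp (-x - 2 * x ^ 2) ≤ 1 - x := by
  have h2 : 1 + x + 2 * x ^ 2 ≤ Real.exp (x + 2 * x ^ 2) := by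
    have := Real.add_one_le_exp (x + 2 * x ^ 2)
    linarith
  have h3 : Real.exp (-x - 2 * x ^ 2) = (Real.exp (x + 2 * x ^ 2))⁻¹ := by
    rw [← Real.exp_neg]
    congr 1
    ring
  rw [h3, inv_le_iff_one_le_mul₀ (Real.exp_pos _)]
  have h4 : 1 ≤ (1 - x) * (1 + x + 2 * x ^ 2) := by nlinarith [sq_nonneg x]
  exact h4.trans (mul_le_mul_of_nonneg_left h2 (by linarith))

theorem EHF_FINU_sq (y Q : ℕ) (hy : 2 ≤ y) (h : y ≤ Q) :
    ∑ p ∈ (Icc 1 Q).filter (fun p : ℕ => p.Prime ∧ y < p), 2 * (1 / (p : ℝ)) ^ 2 ≤ 2 / (y : ℝ) := by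
  have h1 : ∑ p ∈ (Icc 1 Q).filter (fun p : ℕ => p.Prime ∧ y < p), 2 * (1 / (p : ℝ)) ^ 2 ≤
      ∑ p ∈ Ioc y Q, 2 * (1 / (p : ℝ)) ^ 2 := by
    refine Finset.sum_le_sum_of_subset_of_nonneg ?_ fun p _ _ => by positivity
    intro p hp
    rw [Finset.mem_filter, Finset.mem_Icc] at hp
    rw [Finset.mem_Ioc]
    exact ⟨hp.2.2, hp.1.2⟩
  have h2 : ∑ p ∈ Ioc y Q, 2 * (1 / (p : ℝ)) ^ 2 = 2 * ∑ p ∈ Ioc y Q, ((p : ℝ) ^ 2)⁻¹ := by
    rw [Finset.mul_sum]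
    refine Finset.sum_congr rfl fun p _ => ?_
    rw [one_div, inv_pow]
  have h3 := sum_Ioc_inv_sq_le_sub (α := ℝ) (k := y) (n := Q) (by omega) h
  have h4 : (0 : ℝ) ≤ (Q : ℝ)⁻¹ := by positivity
  rw [h2] at h1
  have h5 : (2 : ℝ) / y = 2 * (y : ℝ)⁻¹ := div_eq_mul_inv _ _
  linarith

/-- `exp(-D) VV y ≤ exp(2/y) VV Q` -/
theorem EHF_FINU_VV (y Q : ℕ) (hy : 2 ≤ y) (h : y ≤ Q) :
    Real.exp (-∑ p ∈ (Icc 1 Q).filter (fun p : ℕ => p.Prime ∧ y < p), 1 / (p : ℝ)) * VV y ≤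
      Real.exp (2 / (y : ℝ)) * VV Q := by
  have h1 : (Icc 1 Q).filter Nat.Prime =
      (Icc 1 Q).filter (fun p : ℕ => p.Prime ∧ y < p) ∪ (Icc 1 y).filter Nat.Prime := by
    ext p
    simp only [Finset.mem_filter, Finset.mem_union, Finset.mem_Icc]
    constructor
    · rintro ⟨⟨h1, h2⟩, h3⟩
      by_cases h4 : y < p
      · exact Or.inl ⟨⟨h1, h2⟩, h3, h4⟩
      · exact Or.inr ⟨⟨h1, by omega⟩, h3⟩
    · rintro (⟨⟨h1, h2⟩, h3, h4⟩ | ⟨⟨h1, h2⟩, h3⟩)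
      · exact ⟨⟨h1, h2⟩, h3⟩
      · exact ⟨⟨h1, by omega⟩, h3⟩
  have h2 : Disjoint ((Icc 1 Q).filter (fun p : ℕ => p.Prime ∧ y < p)) ((Icc 1 y).filter Nat.Prime) := by
    rw [Finset.disjoint_left]
    intro p hp hq
    simp only [Finset.mem_filter, Finset.mem_Icc] at hp hq
    omega
  have hsq := EHF_FINU_sq y Q hy h
  have hVy := EHF_FIN_VV_nonneg y
  have hV : VV Q = (∏ p ∈ (Icc 1 Q).filter (fun p : ℕ => p.Prime ∧ y < p), (1 - 1 / (p : ℝ))) * VV y := by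
    unfold VV
    rw [h1, Finset.prod_union h2]
  rw [hV, ← mul_assoc]
  refine mul_le_mul_of_nonneg_right ?_ hVy
  have h3 : Real.exp (∑ p ∈ (Icc 1 Q).filter (fun p : ℕ => p.Prime ∧ y < p),
      (-(1 / (p : ℝ)) - 2 * (1 / (p : ℝ)) ^ 2)) ≤
      ∏ p ∈ (Icc 1 Q).filter (fun p : ℕ => p.Prime ∧ y < p), (1 - 1 / (p : ℝ)) := by
    rw [Real.exp_sum]
    refine Finset.prod_le_prod (fun p _ => (Real.exp_pos _).le) fun p hp => ?_
    rw [Finset.mem_filter] at hp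
    refine EHF_FINU_fac (by positivity) ?_
    have : (2 : ℝ) ≤ p := by exact_mod_cast hp.2.1.two_le
    exact one_div_le_one_div_of_le (by norm_num) this
  refine le_trans ?_ (mul_le_mul_of_nonneg_left h3 (Real.exp_pos _).le)
  rw [← Real.exp_add]
  apply Real.exp_le_exp.2
  rw [Finset.sum_sub_distrib, Finset.sum_neg_distrib]
  linarith

theorem EHF_FINU_exp {x : ℝ} (h0 : 0 ≤ x) (h1 : x ≤ 1 / 2) : Real.exp x ≤ 1 + 2 * x := by
  have h2 : 1 - x ≤ Real.exp (-x) := by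
    have := Real.add_one_le_exp (-x)
    linarith
  rw [Real.exp_neg] at h2
  have h3 : 0 < 1 - x := by linarith
  have h4 : Real.exp x ≤ (1 - x)⁻¹ := by
    rw [le_inv_comm₀ (Real.exp_pos x) h3]
    exact h2
  refine h4.trans ?_
  rw [inv_le_iff_one_le_mul₀ h3]
  nlinarith


theorem EHF_fac1 {p : ℕ} : 1 - 1 / (p : ℝ) ≤ 1 := by
  have : (0 : ℝ) ≤ 1 / (p : ℝ) := by positivity
  linarith

theorem EHF_GG_nonneg (z n : ℕ) : 0 ≤ GG z n :=
  Finset.prod_nonneg fun _ hp => EHF_FIN_fac (Finset.mem_filter.1 (Finset.mem_filter.1 hp).1).2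

theorem EHF_GG_le_one (z n : ℕ) : GG z n ≤ 1 :=
  Finset.prod_le_one (fun _ hp => EHF_FIN_fac (Finset.mem_filter.1 (Finset.mem_filter.1 hp).1).2)
    fun _ _ => EHF_fac1

theorem EHF_VV_pos (y : ℕ) : 0 < VV y := by
  unfold VV
  refine Finset.prod_pos fun p hp => ?_
  have h1 : (2 : ℝ) ≤ p := by exact_mod_cast (Finset.mem_filter.1 hp).2.two_le
  have : 1 / (p : ℝ) ≤ 1 / 2 := one_div_le_one_div_of_le (by norm_num) h1
  linarith

theorem EHF_VV_le (z n : ℕ) : VV z ≤ GG z n := by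
  unfold VV GG
  rw [← Finset.prod_filter_mul_prod_filter_not ((Icc 1 z).filter Nat.Prime) (fun p => ¬ p ∣ n)]
  have h1 : ∏ p ∈ ((Icc 1 z).filter Nat.Prime).filter (fun p => ¬ ¬ p ∣ n), (1 - 1 / (p : ℝ)) ≤ 1 :=
    Finset.prod_le_one (fun _ hp => EHF_FIN_fac (Finset.mem_filter.1 (Finset.mem_filter.1 hp).1).2)
      fun _ _ => EHF_fac1
  exact mul_le_of_le_one_right (EHF_GG_nonneg z n) h1

/-- the part of the density from the primes in `(y, Q]` -/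
noncomputable def EHF_V (Q y : ℕ) : ℝ := ∏ p ∈ PQ Q y, (1 - 1 / (p : ℝ))

theorem EHF_split (y Q : ℕ) (h : y ≤ Q) : (Icc 1 Q).filter Nat.Prime =
      PQ Q y ∪ (Icc 1 y).filter Nat.Prime := by
  ext p
  simp only [PQ, Finset.mem_filter, Finset.mem_union, Finset.mem_Icc]
  constructor
  · rintro ⟨⟨h1, h2⟩, h3⟩
    by_cases h4 : y < p
    · exact Or.inl ⟨⟨h1, h2⟩, h3, h4⟩
    · exact Or.inr ⟨⟨h1, by omega⟩, h3⟩
  · rintro (⟨⟨h1, h2⟩, h3, h4⟩ | ⟨⟨h1, h2⟩, h3⟩)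
    · exact ⟨⟨h1, h2⟩, h3⟩
    · exact ⟨⟨h1, by omega⟩, h3⟩

theorem EHF_disj (y Q : ℕ) : Disjoint (PQ Q y) ((Icc 1 y).filter Nat.Prime) := by
  rw [Finset.disjoint_left]
  intro p hp hq
  simp only [PQ, Finset.mem_filter, Finset.mem_Icc] at hp hq
  omega

theorem EHF_VVV (y Q : ℕ) (h : y ≤ Q) : VV Q = EHF_V Q y * VV y := by
  unfold VV EHF_V
  rw [EHF_split y Q h, Finset.prod_union (EHF_disj y Q)]

theorem EHF_PQ_fac {Q y p : ℕ} (hp : p ∈ PQ Q y) : 0 ≤ 1 - 1 / (p : ℝ) :=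
  EHF_FIN_fac (Finset.mem_filter.1 hp).2.1

theorem EHF_V_nonneg (Q y : ℕ) : 0 ≤ EHF_V Q y := Finset.prod_nonneg fun _ hp => EHF_PQ_fac hp

theorem EHF_GGV (y Q n : ℕ) (h : y ≤ Q) :
    GG Q n = (∏ p ∈ (PQ Q y).filter (fun p => ¬ p ∣ n), (1 - 1 / (p : ℝ))) * GG y n := by
  unfold GG
  rw [EHF_split y Q h, Finset.filter_union, Finset.prod_union]
  exact Finset.disjoint_filter_filter (EHF_disj y Q)

theorem EHF_one_sub (s : Finset ℕ) (f : ℕ → ℝ) (h : ∀ p ∈ s, 0 ≤ f p ∧ f p ≤ 1) :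
    1 - ∑ p ∈ s, f p ≤ ∏ p ∈ s, (1 - f p) := by
  classical
  induction s using Finset.induction_on with
  | empty => simp
  | insert a s ha ih =>
    rw [Finset.sum_insert ha, Finset.prod_insert ha]
    have h1 := h a (Finset.mem_insert_self _ _)
    have h2 : 0 ≤ ∑ p ∈ s, f p := Finset.sum_nonneg fun p hp => (h p (Finset.mem_insert_of_mem hp)).1
    have h3 := ih fun p hp => h p (Finset.mem_insert_of_mem hp)
    have h4 : (1 - f a) * (1 - ∑ p ∈ s, f p) ≤ (1 - f a) * ∏ p ∈ s, (1 - f p) :=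
      mul_le_mul_of_nonneg_left h3 (by linarith [h1.2])
    nlinarith [mul_nonneg h1.1 h2]

theorem EHF_GG_lo (y Q n : ℕ) (h : y ≤ Q) : EHF_V Q y * GG y n ≤ GG Q n := by
  rw [EHF_GGV y Q n h]
  refine mul_le_mul_of_nonneg_right ?_ (EHF_GG_nonneg y n)
  unfold EHF_V
  rw [← Finset.prod_filter_mul_prod_filter_not (PQ Q y) (fun p => ¬ p ∣ n)]
  refine mul_le_of_le_one_right ?_ ?_
  · exact Finset.prod_nonneg fun _ hp => EHF_PQ_fac (Finset.mem_filter.1 hp).1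
  · exact Finset.prod_le_one (fun _ hp => EHF_PQ_fac (Finset.mem_filter.1 hp).1) fun _ _ => EHF_fac1

theorem EHF_XX_nonneg (Q y n : ℕ) : 0 ≤ XX Q y n := Finset.sum_nonneg fun p _ => by positivity

theorem EHF_GG_hi (y Q n : ℕ) (h : y ≤ Q) : GG Q n ≤ EHF_V Q y * GG y n + XX Q y n := by
  rw [EHF_GGV y Q n h]
  set B : ℝ := ∏ p ∈ (PQ Q y).filter (fun p => ¬ p ∣ n), (1 - 1 / (p : ℝ)) with hB
  have hB0 : 0 ≤ B := Finset.prod_nonneg fun _ hp => EHF_PQ_fac (Finset.mem_filter.1 hp).1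
  have hB1 : B ≤ 1 :=
    Finset.prod_le_one (fun _ hp => EHF_PQ_fac (Finset.mem_filter.1 hp).1) fun _ _ => EHF_fac1
  set C : ℝ := ∏ p ∈ (PQ Q y).filter (fun p => p ∣ n), (1 - 1 / (p : ℝ)) with hC
  have hV : EHF_V Q y = C * B := by
    unfold EHF_V
    rw [← Finset.prod_filter_mul_prod_filter_not (PQ Q y) (fun p => p ∣ n)]
  have hC1 : 1 - XX Q y n ≤ C := by
    refine EHF_one_sub _ (fun p => 1 / (p : ℝ)) fun p hp => ⟨by positivity, ?_⟩
    have := EHF_PQ_fac (Finset.mem_filter.1 hp).1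
    linarith
  have hX := EHF_XX_nonneg Q y n
  have hG0 := EHF_GG_nonneg y n
  have hG1 := EHF_GG_le_one y n
  have h1 : B ≤ C * B + XX Q y n := by nlinarith
  rw [hV]
  calc B * GG y n ≤ (C * B + XX Q y n) * GG y n := mul_le_mul_of_nonneg_right h1 hG0
    _ = C * B * GG y n + XX Q y n * GG y n := by ring
    _ ≤ C * B * GG y n + XX Q y n := by nlinarith

theorem EHF_add (Q : ℕ) (F G : ℕ → ℝ) : mQ Q (fun n => F n + G n) = mQ Q F + mQ Q G := by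
  unfold mQ
  rw [Finset.sum_add_distrib, add_div]

theorem EHF_r1 {L y : ℝ} (h : 3 ≤ L) (h4 : 3 ≤ L ^ 4) (hy : y < L ^ 4 + 1) : y ≤ L ^ 5 := by
  have : L ^ 5 = L * L ^ 4 := by ring
  nlinarith

theorem EHF_r2 {C' b : ℕ} : 5 * (C' * (b + 3 + 1)) ≤ 20 * C' * (b + 1) := by nlinarith

theorem EHF_r3 {C' b : ℕ} (h : 1 ≤ C') : 4 ≤ 20 * C' * (b + 1) := by nlinarith

theorem EHF_r4 {δ K ε : ℝ} (h : δ * (256 * K) = ε) (hδ : 0 < δ) (hK : 1 ≤ K) : δ ≤ ε / 256 := by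
  nlinarith

theorem EHF_r5 {K C2 : ℝ} (hK1 : 1 ≤ K) (hK : K ≤ K ^ 3) (hC : 1 ≤ C2) :
    256 * K ≤ 257 * 40 * 256 * 8 * C2 * K ^ 3 := by
  have h1 : K ^ 3 ≤ C2 * K ^ 3 := le_mul_of_one_le_left (by positivity) hC
  nlinarith

theorem EHF_r6 {K ε : ℝ} (hK1 : 1 ≤ K) (hε : 0 < ε) (hε1 : ε ≤ 1) : 1 ≤ K ^ 2 / ε := by
  rw [le_div_iff₀ hε]
  nlinarith

theorem EHF_r7 {δ K ε D : ℝ} (h : δ * (256 * K) = ε) (hδ : 0 < δ) (hD : D ≤ K) :
    δ * D ≤ ε / 256 := by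
  have : δ * D ≤ δ * K := mul_le_mul_of_nonneg_left hD hδ.le
  linarith

theorem EHF_r8 {C2 L : ℝ} (hC : 1 ≤ C2) (hL : 3 ≤ L) : C2 * L ≤ C2 * L ^ 2 := by
  refine mul_le_mul_of_nonneg_left ?_ (by linarith)
  nlinarith

theorem EHF_r9 {ε : ℝ} (hε : 0 < ε) (hε1 : ε ≤ 1) :
    1 - ε ≤ (1 - ε / 32) * (1 - ε / 8) * (1 - ε / 8) - ε / 8 := by
  have k1 : 1 - ε / 4 ≤ (1 - ε / 8) * (1 - ε / 8) := by nlinarith
  have k2 : (1 - ε / 32) * (1 - ε / 4) ≤ (1 - ε / 32) * ((1 - ε / 8) * (1 - ε / 8)) :=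
    mul_le_mul_of_nonneg_left k1 (by linarith)
  nlinarith

theorem EHF_r10 {ε : ℝ} (hε : 0 < ε) (hε1 : ε ≤ 1) :
    (1 + ε / 32) * (1 + ε / 8) * (1 + ε / 64) + ε / 4 ≤ 1 + ε := by
  have k1 : (1 + ε / 32) * (1 + ε / 8) ≤ 1 + ε / 4 := by nlinarith
  have k2 : (1 + ε / 32) * (1 + ε / 8) * (1 + ε / 64) ≤ (1 + ε / 4) * (1 + ε / 64) :=
    mul_le_mul_of_nonneg_right k1 (by linarith)
  nlinarith

theorem EHF_r11 {A C2 ε : ℝ} (hA : A = 257 * 40 * 256 * 8 * C2 / ε ^ 3) (hC : 1 ≤ C2)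
    (hε : 0 < ε) (hε3 : ε ^ 3 ≤ 1) : 1 ≤ A := by
  rw [hA, le_div_iff₀ (by positivity)]
  linarith

theorem EHF_r12 {A C2 L ε : ℝ} (hA : A = 257 * 40 * 256 * 8 * C2 / ε ^ 3) (hC : 1 ≤ C2)
    (hε : 0 < ε) (hε1 : ε ≤ 1) (hAL : A ≤ L) : 496 * C2 ≤ ε * L := by
  have k1 : ε * A ≤ ε * L := mul_le_mul_of_nonneg_left hAL hε.le
  have k2 : 496 * C2 ≤ ε * A := by
    rw [hA]
    have k3 : ε * (257 * 40 * 256 * 8 * C2 / ε ^ 3) = 257 * 40 * 256 * 8 * C2 / ε ^ 2 := by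
      field_simp
    rw [k3, le_div_iff₀ (by positivity)]
    have k4 : ε ^ 2 ≤ 1 := pow_le_one₀ hε.le hε1
    have k5 : 496 * C2 * ε ^ 2 ≤ 496 * C2 * 1 := mul_le_mul_of_nonneg_left k4 (by linarith)
    linarith
  linarith

/-- the error between the scales -/
theorem EHF_err {U y L ly C2 V K D δ ε A : ℝ} (hε : 0 < ε) (hε1 : ε ≤ 1) (hC2b : 1 ≤ C2)
    (hA : A = 257 * 40 * 256 * 8 * C2 / ε ^ 3) (q2 : 3 ≤ L) (hK1 : 1 ≤ K) (hAK : A * K ^ 3 ≤ L)
    (hy1 : L ^ 4 ≤ y) (hUL : L ^ 4 ≤ U) (hδ0 : 0 < δ) (hinv : 1 / δ = 256 * K / ε) (hD0 : 0 ≤ D)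
    (hDK : D ≤ K) (hlogy : 1 ≤ ly) (hVQ : 1 / (C2 * L) ≤ V) :
    (D / δ + 1) * ((U / y + 1) * (20 * (L / ly) / δ)) ≤ ε / 8 * (U * V) := by
  have hL0 : 0 < L := by linarith
  have hL4 : 0 < L ^ 4 := by positivity
  have hU0 : 0 ≤ U := by linarith
  have hyp : 0 < y := by linarith
  have hK0 : 0 < K := by linarith
  have hC0 : 0 < C2 := by linarith
  have hly : 0 < ly := by linarith
  have f1 : D / δ + 1 ≤ 257 * K ^ 2 / ε := by
    have g1 : D / δ ≤ K / δ := div_le_div_of_nonneg_right hDK hδ0.le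
    have g2 : K / δ = 256 * K ^ 2 / ε := by
      rw [div_eq_mul_one_div, hinv]
      ring
    have g3 : 1 ≤ K ^ 2 / ε := EHF_r6 hK1 hε hε1
    have g4 : 257 * K ^ 2 / ε = 256 * K ^ 2 / ε + K ^ 2 / ε := by ring
    linarith
  have f2 : U / y + 1 ≤ 2 * (U / L ^ 4) := by
    have g1 : U / y ≤ U / L ^ 4 := div_le_div_of_nonneg_left hU0 hL4 hy1
    have g2 : 1 ≤ U / L ^ 4 := by
      rw [le_div_iff₀ hL4]
      linarith
    linarith
  have f3 : 20 * (L / ly) / δ ≤ 20 * L * (256 * K / ε) := by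
    rw [div_eq_mul_one_div, hinv]
    refine mul_le_mul_of_nonneg_right ?_ (by positivity)
    have : L / ly ≤ L := div_le_self hL0.le hlogy
    linarith
  have f4 : (0 : ℝ) ≤ D / δ + 1 := by positivity
  have f5 : (0 : ℝ) ≤ 20 * (L / ly) / δ := by positivity
  calc (D / δ + 1) * ((U / y + 1) * (20 * (L / ly) / δ))
      ≤ (257 * K ^ 2 / ε) * ((2 * (U / L ^ 4)) * (20 * L * (256 * K / ε))) := by
        refine mul_le_mul f1 ?_ (by positivity) (by positivity)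
        exact mul_le_mul f2 f3 f5 (by positivity)
    _ = (A * K ^ 3) * (ε / 8 * (U / (C2 * L ^ 3))) := by
        rw [hA]
        field_simp
        ring
    _ ≤ L * (ε / 8 * (U / (C2 * L ^ 3))) := mul_le_mul_of_nonneg_right hAK (by positivity)
    _ = ε / 8 * (U * (1 / (C2 * L ^ 2))) := by
        field_simp
    _ ≤ ε / 8 * (U * (1 / (C2 * L))) := by
        have g2 : 1 / (C2 * L ^ 2) ≤ 1 / (C2 * L) :=
          one_div_le_one_div_of_le (by positivity) (EHF_r8 hC2b q2)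
        gcongr
    _ ≤ ε / 8 * (U * V) := by gcongr

/-- the large primes -/
theorem EHF_lar {y L ly C2 V D ε : ℝ} (hε : 0 < ε) (hC2b : 1 ≤ C2)
    (q2 : 3 ≤ L) (hy1 : L ^ 4 ≤ y) (hD0 : 0 ≤ D)
    (hDL : D ≤ L) (hlogy : 1 ≤ ly) (hVQ : 1 / (C2 * L) ≤ V) (g5 : 496 * C2 ≤ ε * L) :
    (1 / y) * (2 * D + 60 * (L / ly)) ≤ ε / 8 * V := by
  have hL0 : 0 < L := by linarith
  have hL4 : 0 < L ^ 4 := by positivity
  have hyp : 0 < y := by linarith
  have hC0 : 0 < C2 := by linarith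
  have hly : 0 < ly := by linarith
  have g1 : L / ly ≤ L := div_le_self hL0.le hlogy
  have g2 : 2 * D + 60 * (L / ly) ≤ 62 * L := by linarith
  have g3 : 1 / y ≤ 1 / L ^ 4 := one_div_le_one_div_of_le (by positivity) hy1
  have g4 : (0 : ℝ) ≤ 2 * D + 60 * (L / ly) := by positivity
  calc (1 / y) * (2 * D + 60 * (L / ly)) ≤ (1 / L ^ 4) * (62 * L) :=
        mul_le_mul g3 g2 g4 (by positivity)
    _ = (496 * C2) * (1 / (8 * C2 * L ^ 3)) := by
        field_simp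
        ring
    _ ≤ (ε * L) * (1 / (8 * C2 * L ^ 3)) := mul_le_mul_of_nonneg_right g5 (by positivity)
    _ = ε / 8 * (1 / (C2 * L ^ 2)) := by
        field_simp
    _ ≤ ε / 8 * (1 / (C2 * L)) := by
        have k2 : 1 / (C2 * L ^ 2) ≤ 1 / (C2 * L) :=
          one_div_le_one_div_of_le (by positivity) (EHF_r8 hC2b q2)
        gcongr
    _ ≤ ε / 8 * V := by gcongr

theorem t_EHF (h1 : S_EHM) (h2 : S_FUNDE) (h3 : S_XB) (h4 : Pool.Agent.N422.LG.S_MERB) : S_EHF := by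
  obtain ⟨C', hC', h2⟩ := h2
  obtain ⟨C1, hC1, h4⟩ := h4
  refine ⟨20 * C', by omega, fun b a ha => ?_⟩
  obtain ⟨y0, hy0⟩ := h2 (b + 3)
  have hε : 0 < (1 / 2 : ℝ) ^ b := by positivity
  have hε1 : (1 / 2 : ℝ) ^ b ≤ 1 := pow_le_one₀ (by norm_num) (by norm_num)
  have hb2 : (1 / 2 : ℝ) ^ (b + 3) = (1 / 2 : ℝ) ^ b / 8 := by
    rw [pow_add]
    norm_num
    ring
  rw [hb2] at hy0
  set ε : ℝ := (1 / 2 : ℝ) ^ b with hεd
  set C2 : ℝ := max C1 1 with hC2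
  have hC2a : C1 ≤ C2 := le_max_left _ _
  have hC2b : 1 ≤ C2 := le_max_right _ _
  clear_value ε C2
  set A : ℝ := 257 * 40 * 256 * 8 * C2 / ε ^ 3 with hA
  have hA0 : 0 < A := by positivity
  clear_value A
  obtain ⟨Q0, hQ0⟩ := Filter.eventually_atTop.1 (EHF_FIN_ev (y0 + a) C2 (8 * A) (by positivity))
  refine ⟨Q0, fun Q hQ U hU c hw hwa => ?_⟩
  obtain ⟨q1, q2, q3, q4, q5, q6⟩ := hQ0 Q hQ
  obtain ⟨m1, m2⟩ := h4 Q q1
  set L : ℝ := Real.log Q with hL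
  set K : ℝ := Real.log L + C2 with hK
  clear_value K
  have hK1 : 1 ≤ K := by
    have : 0 ≤ Real.log L := Real.log_nonneg (by linarith)
    linarith
  -- `A K^3 ≤ L`
  have hAK : A * K ^ 3 ≤ L := by
    have hlog : 0 ≤ Real.log L := Real.log_nonneg (by linarith)
    have h4 : K ≤ 2 * Real.log L := by linarith
    have h5 : K ^ 3 ≤ (2 * Real.log L) ^ 3 := pow_le_pow_left₀ (by linarith) h4 3
    calc A * K ^ 3 ≤ A * (2 * Real.log L) ^ 3 := mul_le_mul_of_nonneg_left h5 hA0.le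
      _ = 8 * A * Real.log L ^ 3 := by ring
      _ ≤ L := q5
  have hL4 : (3 : ℝ) ≤ L ^ 4 := by
    have h5 := pow_le_pow_left₀ (by norm_num : (0:ℝ) ≤ 3) q2 4
    norm_num at h5
    linarith
  have hLL4 : L ≤ L ^ 4 := by
    calc L = L ^ 1 := (pow_one L).symm
      _ ≤ L ^ 4 := pow_le_pow_right₀ (by linarith) (by norm_num)
  -- the first scale
  set y : ℕ := ⌈L ^ 4⌉₊ with hy
  have hy1 : L ^ 4 ≤ (y : ℝ) := Nat.le_ceil _
  have hy2 : (y : ℝ) < L ^ 4 + 1 := Nat.ceil_lt_add_one (by positivity)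
  have hy5 : (y : ℝ) ≤ L ^ 5 := EHF_r1 q2 hL4 hy2
  have hyr : (3 : ℝ) ≤ y := hL4.trans hy1
  have hy3 : 3 ≤ y := by exact_mod_cast hyr
  have hyQ : y ≤ Q := by
    have : (y : ℝ) ≤ Q := hy5.trans q6
    exact_mod_cast this
  have hyy0a : y0 + a ≤ y := by
    have : ((y0 + a : ℕ) : ℝ) ≤ y := by linarith
    exact_mod_cast this
  have hyy0 : y0 ≤ y := by omega
  have hUy : y ^ (C' * (b + 3 + 1)) ≤ U := by
    have h4 : ((y : ℝ)) ^ (C' * (b + 3 + 1)) ≤ U := by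
      calc ((y : ℝ)) ^ (C' * (b + 3 + 1)) ≤ (L ^ 5) ^ (C' * (b + 3 + 1)) :=
            pow_le_pow_left₀ (by positivity) hy5 _
        _ = L ^ (5 * (C' * (b + 3 + 1))) := by rw [← pow_mul]
        _ ≤ L ^ (20 * C' * (b + 1)) := by
            exact pow_le_pow_right₀ (by linarith) EHF_r2
        _ ≤ U := hU
    exact_mod_cast h4
  have hUL : L ^ 4 ≤ (U : ℝ) := by
    refine le_trans ?_ hU
    exact pow_le_pow_right₀ (by linarith) (EHF_r3 hC')
  have hf := hy0 y hyy0 U hUy a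
  -- the means
  set M : ℝ := mQ Q (wt Q c) with hM
  have hM0 : 0 ≤ M := EHF_FIN_nonneg Q hw
  set Gy : ℝ := mQ Q (fun n => wt Q c n * GG y n) with hGy
  set GQ : ℝ := mQ Q (fun n => wt Q c n * GG Q n) with hGQ
  set X : ℝ := mQ Q (fun n => wt Q c n * XX Q y n) with hX
  set Sy : ℝ := mQ Q (fun n => wt Q c n * ((SE a U y n).card : ℝ)) with hSy
  set SQ : ℝ := mQ Q (fun n => wt Q c n * ((SE a U Q n).card : ℝ)) with hSQ
  have hGy0 : 0 ≤ Gy := EHF_FIN_nonneg Q fun n => mul_nonneg (hw n) (EHF_GG_nonneg y n)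
  have hGQ0 : 0 ≤ GQ := EHF_FIN_nonneg Q fun n => mul_nonneg (hw n) (EHF_GG_nonneg Q n)
  have hX0 : 0 ≤ X := EHF_FIN_nonneg Q fun n => mul_nonneg (hw n) (EHF_XX_nonneg Q y n)
  have hSy0 : 0 ≤ Sy := EHF_FIN_nonneg Q fun n => mul_nonneg (hw n) (Nat.cast_nonneg _)
  have hU0 : (0 : ℝ) ≤ U := Nat.cast_nonneg _
  have hfn : ∀ n, wt Q c n ≠ 0 →
      |((SE a U y n).card : ℝ) - U * GG y n| ≤ ε / 8 * (U * GG y n) := by
    intro n hn
    apply hf n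
    intro p hp hpn hpa
    apply hn
    apply hwa n
    intro hco
    have hp1 : p ∣ 1 := by
      have := Nat.dvd_gcd hpn hpa
      rwa [hco] at this
    exact (Finset.mem_filter.1 hp).2.one_lt.ne' (Nat.dvd_one.1 hp1)
  have hmlo : (1 - ε / 8) * U * Gy ≤ Sy := by
    rw [hGy, hSy, ← EHF_FIN_smul]
    refine EHF_FIN_mono Q fun n => ?_
    by_cases hn : wt Q c n = 0
    · simp [hn]
    · have h5 := (abs_le.1 (hfn n hn)).1
      have h6 : (1 - ε / 8) * (U * GG y n) ≤ ((SE a U y n).card : ℝ) := by linarith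
      have h7 := mul_le_mul_of_nonneg_left h6 (hw n)
      calc (1 - ε / 8) * U * (wt Q c n * GG y n) = wt Q c n * ((1 - ε / 8) * (U * GG y n)) := by ring
        _ ≤ _ := h7
  have hmhi : Sy ≤ (1 + ε / 8) * U * Gy := by
    rw [hGy, hSy, ← EHF_FIN_smul]
    refine EHF_FIN_mono Q fun n => ?_
    by_cases hn : wt Q c n = 0
    · simp [hn]
    · have h5 := (abs_le.1 (hfn n hn)).2
      have h6 : ((SE a U y n).card : ℝ) ≤ (1 + ε / 8) * (U * GG y n) := by linarith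
      have h7 := mul_le_mul_of_nonneg_left h6 (hw n)
      calc _ ≤ _ := h7
        _ = (1 + ε / 8) * U * (wt Q c n * GG y n) := by ring
  have hMG : VV Q * M ≤ GQ := by
    rw [hM, hGQ, ← EHF_FIN_smul]
    refine EHF_FIN_mono Q fun n => ?_
    rw [mul_comm]
    exact mul_le_mul_of_nonneg_left (EHF_VV_le Q n) (hw n)
  have hVG : EHF_V Q y * Gy ≤ GQ := by
    rw [hGy, hGQ, ← EHF_FIN_smul]
    refine EHF_FIN_mono Q fun n => ?_
    calc EHF_V Q y * (wt Q c n * GG y n) = wt Q c n * (EHF_V Q y * GG y n) := by ring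
      _ ≤ _ := mul_le_mul_of_nonneg_left (EHF_GG_lo y Q n hyQ) (hw n)
  have hVG2 : GQ ≤ EHF_V Q y * Gy + X := by
    rw [hGy, hGQ, hX, ← EHF_FIN_smul, ← EHF_add]
    refine EHF_FIN_mono Q fun n => ?_
    calc wt Q c n * GG Q n ≤ wt Q c n * (EHF_V Q y * GG y n + XX Q y n) :=
          mul_le_mul_of_nonneg_left (EHF_GG_hi y Q n hyQ) (hw n)
      _ = _ := by ring
  -- the parameter
  set δ : ℝ := ε / (256 * K) with hδ
  have hK0 : 0 < K := by linarith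
  have hδ0 : 0 < δ := by positivity
  clear_value δ
  have hδK : δ * (256 * K) = ε := by rw [hδ]; field_simp
  have hδε : δ ≤ ε / 256 := EHF_r4 hδK hδ0 hK1
  have hδ1 : δ ≤ 1 / 16 := by linarith
  have hinv : 1 / δ = 256 * K / ε := by
    rw [hδ]
    field_simp
  have hε3 : ε ^ 3 ≤ ε := by
    calc ε ^ 3 ≤ ε ^ 1 := pow_le_pow_of_le_one hε.le hε1 (by norm_num)
      _ = ε := pow_one _
  have hK3 : K ≤ K ^ 3 := by
    calc K = K ^ 1 := (pow_one K).symm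
      _ ≤ K ^ 3 := pow_le_pow_right₀ hK1 (by norm_num)
  have hyδ : 1 / (y : ℝ) ≤ δ := by
    have h4 : 1 / δ ≤ y := by
      rw [hinv]
      calc 256 * K / ε ≤ 256 * K / ε ^ 3 := div_le_div_of_nonneg_left (by positivity) (by positivity) hε3
        _ ≤ 257 * 40 * 256 * 8 * C2 * K ^ 3 / ε ^ 3 := by
            exact div_le_div_of_nonneg_right (EHF_r5 hK1 hK3 hC2b) (by positivity)
        _ = A * K ^ 3 := by rw [hA]; ring
        _ ≤ L := hAK
        _ ≤ y := hLL4.trans hy1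
    rw [div_le_iff₀ (by linarith)]
    rw [div_le_iff₀ hδ0] at h4
    linarith
  -- the sum
  set D : ℝ := ∑ p ∈ PQ Q y, 1 / (p : ℝ) with hD
  have hD0 : 0 ≤ D := Finset.sum_nonneg fun p _ => by positivity
  have hDK : D ≤ K := by
    have h4 : D ≤ ∑ p ∈ (Icc 1 Q).filter Nat.Prime, 1 / (p : ℝ) := by
      refine Finset.sum_le_sum_of_subset_of_nonneg ?_ fun p _ _ => by positivity
      intro p hp
      unfold PQ at hp
      rw [Finset.mem_filter] at hp ⊢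
      exact ⟨hp.1, hp.2.1⟩
    linarith
  obtain ⟨hlo, hhi⟩ := h1 Q U y a δ c ha (by omega) (by omega) hyQ hδ0 hδ1 hyδ hw
  rw [← hD, ← hM, ← hL, ← hSy, ← hSQ] at hlo
  rw [← hD, ← hM, ← hL, ← hSy, ← hSQ, ← hX] at hhi
  have hxb := h3 Q y c (by omega) hyQ hw
  rw [← hD, ← hM, ← hL, ← hX] at hxb
  have hVlo : EHF_V Q y ≤ Real.exp (-D) := by
    have h5 := EHF_FIN_VV y Q hyQ
    rw [EHF_VVV y Q hyQ] at h5
    exact le_of_mul_le_mul_right h5 (EHF_VV_pos y)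
  have hVhi : Real.exp (-D) ≤ Real.exp (2 / (y : ℝ)) * EHF_V Q y := by
    have h5 := EHF_FINU_VV y Q (by omega) hyQ
    rw [EHF_VVV y Q hyQ, ← mul_assoc] at h5
    exact le_of_mul_le_mul_right h5 (EHF_VV_pos y)
  have hVQ0 := EHF_FIN_VV_nonneg Q
  have hV0 := EHF_V_nonneg Q y
  have hyp : (0 : ℝ) < y := by linarith
  have hL0 : 0 < L := by linarith
  -- the exponentials
  have hexplo : Real.exp (-D) * (1 - ε / 32) ≤ Real.exp (-((1 + 8 * δ) * D)) := by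
    have h4 : -((1 + 8 * δ) * D) = -D + -(8 * δ * D) := by ring
    rw [h4, Real.exp_add]
    refine mul_le_mul_of_nonneg_left ?_ (Real.exp_pos _).le
    have h5 := Real.add_one_le_exp (-(8 * δ * D))
    have h6 : 8 * δ * D ≤ ε / 32 := by
      have := EHF_r7 hδK hδ0 hDK
      linarith
    linarith
  have h2y : 2 / (y : ℝ) ≤ ε / 128 := by
    have : 2 / (y : ℝ) = 2 * (1 / (y : ℝ)) := by ring
    rw [this]
    linarith
  have hexp1 : Real.exp (2 / (y : ℝ)) ≤ 1 + ε / 64 := by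
    have := EHF_FINU_exp (x := 2 / (y : ℝ)) (by positivity) (by linarith)
    linarith
  have hexphi : Real.exp (-((1 - 3 * δ) * D)) ≤ Real.exp (-D) * (1 + ε / 32) := by
    have h4 : -((1 - 3 * δ) * D) = -D + 3 * δ * D := by ring
    rw [h4, Real.exp_add]
    refine mul_le_mul_of_nonneg_left ?_ (Real.exp_pos _).le
    have h6 : 3 * δ * D ≤ 3 * (ε / 256) := by
      have := EHF_r7 hδK hδ0 hDK
      linarith
    have h5 := EHF_FINU_exp (x := 3 * δ * D) (by positivity) (by linarith)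
    linarith
  -- the errors
  have hlogy : 1 ≤ Real.log y := by
    rw [Real.le_log_iff_exp_le (by linarith)]
    have := Real.exp_one_lt_d9
    linarith
  have hVQ : 1 / (C2 * L) ≤ VV Q := by
    refine le_trans ?_ m2
    refine one_div_le_one_div_of_le (by positivity) ?_
    exact mul_le_mul_of_nonneg_right hC2a (by linarith)
  have hE : (D / δ + 1) * ((U / y + 1) * (20 * (L / Real.log y) / δ)) ≤ ε / 8 * (U * VV Q) :=
    EHF_err hε hε1 hC2b hA q2 hK1 hAK hy1 hUL hδ0 hinv hD0 hDK hlogy hVQ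
  have hE' : (D / δ + 1) * ((U / y + 1) * (2 * (L / Real.log y) / δ)) ≤ ε / 8 * (U * VV Q) := by
    refine le_trans ?_ hE
    have f1 : (0 : ℝ) ≤ D / δ + 1 := by positivity
    have f2 : (0 : ℝ) ≤ (U : ℝ) / y + 1 := by positivity
    have f3 : (0 : ℝ) ≤ L / Real.log y / δ := by
      have : 0 ≤ L / Real.log y := div_nonneg (by linarith) (by linarith)
      exact div_nonneg this hδ0.le
    refine mul_le_mul_of_nonneg_left (mul_le_mul_of_nonneg_left ?_ f2) f1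
    rw [mul_div_assoc, mul_div_assoc]
    exact mul_le_mul_of_nonneg_right (by norm_num) f3
  -- the large primes
  have hKL : K ≤ L := by
    have g1 : 1 ≤ A := EHF_r11 hA hC2b hε (hε3.trans hε1)
    have g2 : K ^ 3 ≤ A * K ^ 3 := le_mul_of_one_le_left (by positivity) g1
    linarith
  have hAL : A ≤ L := by
    have g1 : 1 ≤ K ^ 3 := one_le_pow₀ hK1
    have g2 : A ≤ A * K ^ 3 := le_mul_of_one_le_right hA0.le g1
    linarith
  have hXX : (1 / (y : ℝ)) * (2 * D + 60 * (L / Real.log y)) ≤ ε / 8 * VV Q :=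
    EHF_lar hε hC2b q2 hy1 hD0 (hDK.trans hKL) hlogy hVQ (EHF_r12 hA hC2b hε hε1 hAL)
  have hXG : X ≤ ε / 8 * GQ := by
    calc X ≤ (1 / (y : ℝ)) * (2 * D + 60 * (L / Real.log y)) * M := hxb
      _ ≤ ε / 8 * VV Q * M := mul_le_mul_of_nonneg_right hXX hM0
      _ = ε / 8 * (VV Q * M) := by ring
      _ ≤ ε / 8 * GQ := mul_le_mul_of_nonneg_left hMG (by linarith)
  have hEG : (D / δ + 1) * ((U / y + 1) * (20 * (L / Real.log y) / δ)) * M ≤ ε / 8 * (U * GQ) := by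
    calc _ ≤ ε / 8 * (U * VV Q) * M := mul_le_mul_of_nonneg_right hE hM0
      _ = ε / 8 * (U * (VV Q * M)) := by ring
      _ ≤ ε / 8 * (U * GQ) := by gcongr
  have hEG' : (D / δ + 1) * ((U / y + 1) * (2 * (L / Real.log y) / δ)) * M ≤ ε / 8 * (U * GQ) := by
    calc _ ≤ ε / 8 * (U * VV Q) * M := mul_le_mul_of_nonneg_right hE' hM0
      _ = ε / 8 * (U * (VV Q * M)) := by ring
      _ ≤ ε / 8 * (U * GQ) := by gcongr
  have hP0 : 0 ≤ U * GQ := mul_nonneg hU0 hGQ0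
  -- the lower bound
  have hTlo : (1 - ε / 32) * (1 - ε / 8) * (1 - ε / 8) * (U * GQ) ≤
      Real.exp (-((1 + 8 * δ) * D)) * Sy := by
    have g1 : (0 : ℝ) ≤ 1 - ε / 32 := by linarith
    have g2 : (0 : ℝ) ≤ 1 - ε / 8 := by linarith
    have g3 : (1 - ε / 8) * GQ ≤ Real.exp (-D) * Gy := by
      have : EHF_V Q y * Gy ≤ Real.exp (-D) * Gy := mul_le_mul_of_nonneg_right hVlo hGy0
      linarith
    calc (1 - ε / 32) * (1 - ε / 8) * (1 - ε / 8) * (U * GQ)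
        = (1 - ε / 32) * (1 - ε / 8) * U * ((1 - ε / 8) * GQ) := by ring
      _ ≤ (1 - ε / 32) * (1 - ε / 8) * U * (Real.exp (-D) * Gy) :=
          mul_le_mul_of_nonneg_left g3 (by positivity)
      _ = (Real.exp (-D) * (1 - ε / 32)) * ((1 - ε / 8) * U * Gy) := by ring
      _ ≤ Real.exp (-((1 + 8 * δ) * D)) * Sy :=
          mul_le_mul hexplo hmlo (by positivity) (Real.exp_pos _).le
  have hThi : Real.exp (-((1 - 3 * δ) * D)) * Sy ≤
      (1 + ε / 32) * (1 + ε / 8) * (1 + ε / 64) * (U * GQ) := by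
    have g3 : Real.exp (-D) * Gy ≤ (1 + ε / 64) * GQ := by
      calc Real.exp (-D) * Gy ≤ (Real.exp (2 / (y : ℝ)) * EHF_V Q y) * Gy :=
            mul_le_mul_of_nonneg_right hVhi hGy0
        _ = Real.exp (2 / (y : ℝ)) * (EHF_V Q y * Gy) := by ring
        _ ≤ (1 + ε / 64) * GQ := mul_le_mul hexp1 hVG (by positivity) (by linarith)
    calc Real.exp (-((1 - 3 * δ) * D)) * Sy
        ≤ (Real.exp (-D) * (1 + ε / 32)) * ((1 + ε / 8) * U * Gy) :=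
          mul_le_mul hexphi hmhi hSy0 (by positivity)
      _ = (1 + ε / 32) * (1 + ε / 8) * U * (Real.exp (-D) * Gy) := by ring
      _ ≤ (1 + ε / 32) * (1 + ε / 8) * U * ((1 + ε / 64) * GQ) :=
          mul_le_mul_of_nonneg_left g3 (by positivity)
      _ = (1 + ε / 32) * (1 + ε / 8) * (1 + ε / 64) * (U * GQ) := by ring
  have hUX : U * X ≤ ε / 8 * (U * GQ) := by
    calc U * X ≤ U * (ε / 8 * GQ) := mul_le_mul_of_nonneg_left hXG hU0
      _ = _ := by ring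
  rw [abs_le]
  constructor
  · have := mul_le_mul_of_nonneg_right (EHF_r9 hε hε1) hP0
    linarith
  · have := mul_le_mul_of_nonneg_right (EHF_r10 hε hε1) hP0
    linarith

end Pool.Agent.N422.EH
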