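import Pool.Agent.N422.EH.Stm

/-! Project EH (helper422), leaf EHM (helper505): progressions between the scales. -/

set_option autoImplicit false

open Finset

namespace Pool.Agent.N422.EH

open Pool.Agent.N422.NW Pool.Agent.N422.SL Pool.Agent.N422.WS Pool.Agent.N422.LG Pool.Agent.N422.LR

theorem EHM_dvd {z p : ℕ} (hp : p ∈ (Icc 1 z).filter Nat.Prime) : p ∣ PP z :=
  Finset.dvd_prod_of_mem (fun p => p) hp

theorem EHM_sqf {Q d : ℕ} (hd : Squarefree d) (h1 : 1 ≤ d) (h2 : d ≤ Q) : d ∣ PP Q := by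
  rw [← Nat.prod_primeFactors_of_squarefree hd]
  refine Finset.prod_dvd_prod_of_subset _ _ _ ?_
  intro p hp
  have hp' := Nat.mem_primeFactors.1 hp
  rw [Finset.mem_filter, Finset.mem_Icc]
  exact ⟨⟨hp'.1.one_lt.le, (Nat.le_of_dvd h1 hp'.2.1).trans h2⟩, hp'.1⟩

theorem EHM_ws (Q : ℕ) (c : ℕ → ℕ → ℝ) (n : ℕ) : ws Q c (n % PP Q) = ws Q c n := by
  unfold ws
  refine Finset.sum_congr rfl fun d hd => ?_
  rw [Finset.mem_filter, Finset.mem_Icc] at hd
  rw [Nat.mod_mod_of_dvd n (EHM_sqf hd.2 hd.1.1 hd.1.2)]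

theorem EHM_mono {Q : ℕ} {F G : ℕ → ℝ} (h : ∀ n, F n ≤ G n) : mQ Q F ≤ mQ Q G := by
  unfold mQ
  exact div_le_div_of_nonneg_right (Finset.sum_le_sum fun n _ => h n) (Nat.cast_nonneg _)

theorem EHM_add (Q : ℕ) (F G : ℕ → ℝ) : mQ Q (fun n => F n + G n) = mQ Q F + mQ Q G := by
  unfold mQ
  rw [Finset.sum_add_distrib, add_div]

theorem EHM_mul (Q : ℕ) (k : ℝ) (F : ℕ → ℝ) : mQ Q (fun n => k * F n) = k * mQ Q F := by
  unfold mQ
  rw [← Finset.mul_sum, mul_div_assoc]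

theorem EHM_SE {a U z n n' : ℕ} (h : ∀ p ∈ (Icc 1 z).filter Nat.Prime, n ≡ n' [MOD p]) :
    SE a U z n = SE a U z n' := by
  unfold SE
  refine Finset.filter_congr fun k _ => ?_
  refine forall_congr' fun p => forall_congr' fun hp => not_congr ?_
  exact (Nat.ModEq.add_left a ((h p hp).mul_left k)).dvd_iff dvd_rfl

theorem EHM_left {Q y n n' : ℕ} {S S' : Finset ℕ} (hS : S = S')
    (h : ∀ p ∈ (Icc 1 Q).filter Nat.Prime, n ≡ n' [MOD p]) :
    left (PQ Q y) S n = left (PQ Q y) S' n' := by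
  subst hS
  unfold left
  refine Finset.filter_congr fun k _ => ?_
  refine forall_congr' fun p => forall_congr' fun hp => not_congr ?_
  have hp' : p ∈ (Icc 1 Q).filter Nat.Prime := by
    unfold PQ at hp
    rw [Finset.mem_filter] at hp ⊢
    exact ⟨hp.1, hp.2.1⟩
  exact ((h p hp').add_right k).dvd_iff dvd_rfl

theorem t_EHM (h1 : S_SQF2) (h2 : S_BACK) (h3 : S_PERM) (h4 : S_RECG) : S_EHM := by
  intro Q U y a δ c ha hay hy hyQ hδ hδ16 hyδ hc
  have hQ : 1 ≤ Q := by omega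
  obtain ⟨c1, h1a, h1b, -⟩ := h1 Q c hQ
  have hc1 := h1b hc
  -- the bijections
  obtain ⟨τ, hτ⟩ : ∃ τ : ℕ → ℕ → ℕ, ∀ p u, τ p u =
      if p ≤ y then u else ((a : ZMod p) * (u : ZMod p)⁻¹).val := ⟨_, fun p u => rfl⟩
  have hbij : ∀ p ∈ (Icc 1 Q).filter Nat.Prime, Set.BijOn (τ p) (Set.Iio p) (Set.Iio p) := by
    intro p hp
    rw [Finset.mem_filter, Finset.mem_Icc] at hp
    by_cases hpy : p ≤ y
    · have : τ p = id := by
        funext u
        rw [hτ, if_pos hpy]; rfl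
      rw [this]
      exact Set.bijOn_id _
    · haveI : Fact p.Prime := ⟨hp.2⟩
      have ha0 : (a : ZMod p) ≠ 0 := by
        intro h0
        rw [ZMod.natCast_eq_zero_iff] at h0
        have := Nat.le_of_dvd ha h0
        omega
      have hmaps : Set.MapsTo (τ p) (Set.Iio p) (Set.Iio p) := by
        intro u _
        rw [Set.mem_Iio, hτ, if_neg hpy]
        exact ZMod.val_lt _
      have hinv : ∀ u ∈ Set.Iio p, τ p (τ p u) = u := by
        intro u hu
        rw [hτ p (τ p u), if_neg hpy, hτ, if_neg hpy, ZMod.natCast_val, ZMod.cast_id, mul_inv,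
          inv_inv, ← mul_assoc, mul_inv_cancel₀ ha0, one_mul]
        exact ZMod.val_cast_of_lt hu
      exact Set.InvOn.bijOn ⟨hinv, hinv⟩ hmaps hmaps
  have hτlt : ∀ n, ∀ p ∈ (Icc 1 Q).filter Nat.Prime, τ p (n % p) < p := by
    intro n p hp
    have h0 := (Finset.mem_filter.1 hp).2
    exact (hbij p hp).mapsTo (Nat.mod_lt n h0.pos)
  -- the Chinese remainder theorem
  have hcrt : ∀ n, ∃ t, ∀ p ∈ (Icc 1 Q).filter Nat.Prime, t % p = τ p (n % p) := by
    intro n
    have hne : ∀ p ∈ (Icc 1 Q).filter Nat.Prime, (fun p : ℕ => p) p ≠ 0 := fun p hp =>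
      (Finset.mem_filter.1 hp).2.ne_zero
    have hco : Set.Pairwise (((Icc 1 Q).filter Nat.Prime : Finset ℕ) : Set ℕ)
        (Function.onFun Nat.Coprime (fun p : ℕ => p)) := by
      intro p hp q hq hpq
      exact (Nat.coprime_primes (Finset.mem_filter.1 hp).2 (Finset.mem_filter.1 hq).2).2 hpq
    obtain ⟨t, ht⟩ := Nat.chineseRemainderOfFinset (fun p => τ p (n % p)) (fun p => p)
      ((Icc 1 Q).filter Nat.Prime) hne hco
    refine ⟨t, fun p hp => ?_⟩
    have h5 : t % p = (τ p (n % p)) % p := ht p hp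
    rw [h5, Nat.mod_eq_of_lt (hτlt n p hp)]
  choose T0 hT0 using hcrt
  obtain ⟨T, hTdef⟩ : ∃ T : ℕ → ℕ, ∀ n, T n = T0 (n % PP Q) := ⟨_, fun n => rfl⟩
  have hTper : ∀ n, T (n % PP Q) = T n := fun n => by rw [hTdef, hTdef, Nat.mod_mod]
  have hT : ∀ n, ∀ p ∈ (Icc 1 Q).filter Nat.Prime, T n % p = τ p (n % p) := by
    intro n p hp
    rw [hTdef, hT0 _ p hp, Nat.mod_mod_of_dvd n (EHM_dvd hp)]
  obtain ⟨c2, h3a, h3b⟩ := h3 Q c1 τ T hQ hbij hT
  obtain ⟨⟨c3, hc3⟩, h2b⟩ := h2 Q c2 hQ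
  have hc2 : ∀ n, 0 ≤ ws Q c2 n := by
    intro n'
    obtain ⟨n, -, hn⟩ := h3a n'
    rw [hn]; exact hc1 n
  have hc3' : ∀ n, 0 ≤ wt Q c3 n := fun n => by rw [hc3]; exact hc2 n
  have hmain : ∀ F : ℕ → ℝ, (∀ n, F (n % PP Q) = F n) →
      mQ Q (fun n => wt Q c3 n * F n) = mQ Q (fun n => wt Q c n * F (T n)) := by
    intro F hF
    have e1 : (fun n => wt Q c3 n * F n) = fun n => ws Q c2 n * F n := by
      funext n; rw [hc3]
    rw [e1, h2b _ (fun n => by rw [EHM_ws, hF]), h3b F hF, h1a (fun n => F (T n))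
      (fun n => by rw [hTper])]
  -- residues of `T n`
  have hTy : ∀ n, ∀ p ∈ (Icc 1 y).filter Nat.Prime, T n ≡ n [MOD p] := by
    intro n p hp
    have hp' := hp
    rw [Finset.mem_filter, Finset.mem_Icc] at hp'
    have hpQ : p ∈ (Icc 1 Q).filter Nat.Prime := by
      rw [Finset.mem_filter, Finset.mem_Icc]
      exact ⟨⟨hp'.1.1, hp'.1.2.trans hyQ⟩, hp'.2⟩
    show T n % p = n % p
    rw [hT n p hpQ, hτ, if_pos hp'.1.2]
  have hTQ : ∀ n, ∀ p ∈ PQ Q y, ∀ h : ℕ,
      (¬ p ∣ n → (p ∣ T n + h ↔ p ∣ a + h * n)) ∧ (p ∣ n → (p ∣ T n + h ↔ p ∣ h)) ∧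
      (p ∣ n → ¬ p ∣ a + h * n) := by
    intro n p hp h
    unfold PQ at hp
    rw [Finset.mem_filter, Finset.mem_Icc] at hp
    obtain ⟨⟨hp1, hpQ⟩, hpp, hpy⟩ := hp
    haveI : Fact p.Prime := ⟨hpp⟩
    have hmem : p ∈ (Icc 1 Q).filter Nat.Prime := by
      rw [Finset.mem_filter, Finset.mem_Icc]
      exact ⟨⟨hp1, hpQ⟩, hpp⟩
    have hpa : ¬ p ∣ a := fun h0 => by
      have := Nat.le_of_dvd ha h0
      omega
    have hcast : ((T n : ℕ) : ZMod p) = (a : ZMod p) * (n : ZMod p)⁻¹ := by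
      have h5 := hT n p hmem
      rw [hτ, if_neg (by omega)] at h5
      have h6 : ((T n : ℕ) : ZMod p) = ((T n % p : ℕ) : ZMod p) := by
        rw [ZMod.natCast_mod]
      rw [h6, h5, ZMod.natCast_val, ZMod.cast_id, ZMod.natCast_mod]
    refine ⟨?_, ?_, ?_⟩
    · intro hn
      have hn0 : (n : ZMod p) ≠ 0 := by
        rwa [Ne, ZMod.natCast_eq_zero_iff]
      rw [← ZMod.natCast_eq_zero_iff, ← ZMod.natCast_eq_zero_iff, Nat.cast_add, Nat.cast_add,
        Nat.cast_mul, hcast]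
      constructor
      · intro h0
        have h5 : ((a : ZMod p) * (n : ZMod p)⁻¹ + h) * n = 0 := by rw [h0, zero_mul]
        rw [add_mul, mul_assoc, inv_mul_cancel₀ hn0, mul_one] at h5
        exact h5
      · intro h0
        have h5 : ((a : ZMod p) + h * n) * (n : ZMod p)⁻¹ = 0 := by rw [h0, zero_mul]
        rw [add_mul, mul_assoc, mul_inv_cancel₀ hn0, mul_one] at h5
        exact h5
    · intro hn
      have hn0 : (n : ZMod p) = 0 := (ZMod.natCast_eq_zero_iff n p).2 hn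
      rw [← ZMod.natCast_eq_zero_iff, ← ZMod.natCast_eq_zero_iff, Nat.cast_add, hcast, hn0,
        inv_zero, mul_zero, zero_add]
    · intro hn h0
      exact hpa ((Nat.dvd_add_left (Dvd.dvd.mul_left hn h)).1 h0)
  -- the sets
  have hper : ∀ z, z ≤ Q → ∀ n, ∀ p ∈ (Icc 1 z).filter Nat.Prime, n % PP Q ≡ n [MOD p] := by
    intro z hz n p hp
    have hp' := hp
    rw [Finset.mem_filter, Finset.mem_Icc] at hp'
    have hpQ : p ∈ (Icc 1 Q).filter Nat.Prime := by
      rw [Finset.mem_filter, Finset.mem_Icc]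
      exact ⟨⟨hp'.1.1, hp'.1.2.trans hz⟩, hp'.2⟩
    exact (Nat.mod_modEq n (PP Q)).of_dvd (EHM_dvd hpQ)
  have hS1 : ∀ n, SE a U y (n + PP y) = SE a U y n := by
    intro n
    refine EHM_SE fun p hp => ?_
    have h5 : n + PP y ≡ n + 0 [MOD p] :=
      Nat.ModEq.add_left n ((Nat.modEq_zero_iff_dvd).2 (EHM_dvd hp))
    rwa [add_zero] at h5
  have hSsub : ∀ n, SE a U y n ⊆ Icc 1 U := fun n => Finset.filter_subset _ _
  have hrec := h4 Q U y δ c3 (SE a U y) hy hyQ hδ hδ16 hyδ hS1 hSsub hc3'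
  have hF1 : mQ Q (fun n => wt Q c3 n * ((SE a U y n).card : ℝ)) =
      mQ Q (fun n => wt Q c n * ((SE a U y n).card : ℝ)) := by
    rw [hmain (fun n => ((SE a U y n).card : ℝ)) (fun n => by rw [EHM_SE (hper y hyQ n)])]
    congr 1
    funext n
    rw [EHM_SE (hTy n)]
  have hF0 : mQ Q (wt Q c3) = mQ Q (wt Q c) := by
    have h5 := hmain (fun _ => 1) (fun _ => rfl)
    simpa using h5
  have hF2 : mQ Q (fun n => wt Q c3 n * ((left (PQ Q y) (SE a U y n) n).card : ℝ)) =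
      mQ Q (fun n => wt Q c n * ((left (PQ Q y) (SE a U y (T n)) (T n)).card : ℝ)) :=
    hmain (fun n => ((left (PQ Q y) (SE a U y n) n).card : ℝ))
      (fun n => by rw [EHM_left (EHM_SE (hper y hyQ n)) (hper Q le_rfl n)])
  rw [hF1, hF0, hF2] at hrec
  have hsubQ : ∀ p, p ∈ (Icc 1 Q).filter Nat.Prime → p ∈ (Icc 1 y).filter Nat.Prime ∨ p ∈ PQ Q y := by
    intro p hp
    rw [Finset.mem_filter, Finset.mem_Icc] at hp
    by_cases hpy : p ≤ y
    · left
      rw [Finset.mem_filter, Finset.mem_Icc]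
      exact ⟨⟨hp.1.1, hpy⟩, hp.2⟩
    · right
      unfold PQ
      rw [Finset.mem_filter, Finset.mem_Icc]
      exact ⟨hp.1, hp.2, by omega⟩
  have hA : ∀ n, left (PQ Q y) (SE a U y (T n)) (T n) ⊆ SE a U Q n := by
    intro n h hh
    rw [EHM_SE (hTy n)] at hh
    unfold left at hh
    rw [Finset.mem_filter] at hh
    obtain ⟨hh1, hh2⟩ := hh
    unfold SE at hh1 ⊢
    rw [Finset.mem_filter] at hh1 ⊢
    refine ⟨hh1.1, fun p hp => ?_⟩
    rcases hsubQ p hp with hp' | hp'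
    · exact hh1.2 p hp'
    · obtain ⟨e1, e2, e3⟩ := hTQ n p hp' h
      by_cases hpn : p ∣ n
      · exact e3 hpn
      · rw [← e1 hpn]; exact hh2 p hp'
  have hB : ∀ n, ((SE a U Q n).card : ℝ) ≤
      ((left (PQ Q y) (SE a U y (T n)) (T n)).card : ℝ) + U * XX Q y n := by
    intro n
    classical
    have hsub : SE a U Q n ⊆ left (PQ Q y) (SE a U y (T n)) (T n) ∪
        ((PQ Q y).filter (fun p => p ∣ n)).biUnion (fun p => (Ioc 0 U).filter (fun h => p ∣ h)) := by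
      intro h hh
      have hh0 := hh
      unfold SE at hh
      rw [Finset.mem_filter] at hh
      obtain ⟨hh1, hh2⟩ := hh
      by_cases hl : h ∈ left (PQ Q y) (SE a U y (T n)) (T n)
      · exact Finset.mem_union_left _ hl
      · refine Finset.mem_union_right _ ?_
        have hSy : h ∈ SE a U y (T n) := by
          rw [EHM_SE (hTy n)]
          unfold SE
          rw [Finset.mem_filter]
          refine ⟨hh1, fun p hp => hh2 p ?_⟩
          rw [Finset.mem_filter, Finset.mem_Icc] at hp ⊢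
          exact ⟨⟨hp.1.1, hp.1.2.trans hyQ⟩, hp.2⟩
        unfold left at hl
        rw [Finset.mem_filter] at hl
        push Not at hl
        obtain ⟨p, hp, hpd⟩ := hl hSy
        obtain ⟨e1, e2, e3⟩ := hTQ n p hp h
        have hpQ : p ∈ (Icc 1 Q).filter Nat.Prime := by
          unfold PQ at hp
          rw [Finset.mem_filter] at hp ⊢
          exact ⟨hp.1, hp.2.1⟩
        have hpn : p ∣ n := by
          by_contra hpn
          exact hh2 p hpQ ((e1 hpn).1 hpd)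
        rw [Finset.mem_biUnion]
        refine ⟨p, Finset.mem_filter.2 ⟨hp, hpn⟩, ?_⟩
        rw [Finset.mem_filter, Finset.mem_Ioc]
        rw [Finset.mem_Icc] at hh1
        exact ⟨⟨by omega, hh1.2⟩, (e2 hpn).1 hpd⟩
    have hcard := (Finset.card_le_card hsub).trans (Finset.card_union_le _ _)
    have hcard2 := Finset.card_biUnion_le (s := (PQ Q y).filter (fun p => p ∣ n))
      (t := fun p => (Ioc 0 U).filter (fun h => p ∣ h))
    have hcard3 : ((∑ p ∈ (PQ Q y).filter (fun p => p ∣ n),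
        ((Ioc 0 U).filter (fun h => p ∣ h)).card : ℕ) : ℝ) ≤ U * XX Q y n := by
      unfold XX
      rw [Nat.cast_sum, Finset.mul_sum]
      refine Finset.sum_le_sum fun p hp => ?_
      rw [Nat.Ioc_filter_dvd_card_eq_div, mul_one_div]
      exact Nat.cast_div_le
    have hcard4 : ((SE a U Q n).card : ℝ) ≤
        ((left (PQ Q y) (SE a U y (T n)) (T n)).card : ℝ) +
        ((∑ p ∈ (PQ Q y).filter (fun p => p ∣ n),
        ((Ioc 0 U).filter (fun h => p ∣ h)).card : ℕ) : ℝ) := by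
      exact_mod_cast hcard.trans (Nat.add_le_add_left hcard2 _)
    linarith
  constructor
  · refine hrec.1.trans (EHM_mono fun n => ?_)
    refine mul_le_mul_of_nonneg_left ?_ (hc n)
    exact_mod_cast Finset.card_le_card (hA n)
  · have h5 : mQ Q (fun n => wt Q c n * ((SE a U Q n).card : ℝ)) ≤
        mQ Q (fun n => wt Q c n * ((left (PQ Q y) (SE a U y (T n)) (T n)).card : ℝ)) +
        U * mQ Q (fun n => wt Q c n * XX Q y n) := by
      rw [← EHM_mul, ← EHM_add]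
      refine EHM_mono fun n => ?_
      have h6 := mul_le_mul_of_nonneg_left (hB n) (hc n)
      calc wt Q c n * ((SE a U Q n).card : ℝ) ≤ _ := h6
        _ = _ := by ring
    linarith [hrec.2]

end Pool.Agent.N422.EH
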