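import Pool.Agent.N422.EH.Stm
import Pool.Agent.N422.LG.FUND

set_option autoImplicit false

/-! EH/FUNDE: the fundamental lemma of the sieve for progressions. After LG/FUND (helper545). -/

namespace Pool.Agent.N422.EH

open Finset Pool.Agent.N422.NW Pool.Agent.N422.SL Pool.Agent.N422.WS Pool.Agent.N422.LG Pool.Agent.N422.LR
open Pool.Agent.H373R2.T7

/-- the condition -/
def FUNDE_Q (a n : ℕ) (p m : ℕ) : Prop := p ∣ a + m * n ∧ ¬ (p ∣ a ∧ p ∣ n)

lemma FUNDE_nuB (a n p : ℕ) (hp : p.Prime) :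
    nuB (FUNDE_Q a n) p = if p ∣ n then 0 else 1 := by
  classical
  have : Fact p.Prime := ⟨hp⟩
  unfold nuB
  split_ifs with h
  · rw [card_eq_zero, filter_eq_empty_iff]
    rintro r _ ⟨h1, h2⟩
    exact h2 ⟨(Nat.dvd_add_left (h.mul_left r)).1 h1, h⟩
  · rw [card_eq_one]
    refine ⟨(-(a : ZMod p) * (n : ZMod p)⁻¹).val, ?_⟩
    have hn0 : (n : ZMod p) ≠ 0 := by rwa [Ne, ZMod.natCast_eq_zero_iff]
    have key : ∀ r : ℕ, p ∣ a + r * n ↔ (r : ZMod p) = -(a : ZMod p) * (n : ZMod p)⁻¹ := by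
      intro r
      rw [← ZMod.natCast_eq_zero_iff]
      push_cast
      rw [eq_mul_inv_iff_mul_eq₀ hn0, eq_neg_iff_add_eq_zero, add_comm]
    ext r
    rw [mem_filter, mem_range, mem_singleton]
    constructor
    · rintro ⟨h1, h2, _⟩
      rw [← (key r).1 h2, ZMod.val_natCast, Nat.mod_eq_of_lt h1]
    · rintro rfl
      exact ⟨ZMod.val_lt _, (key _).2 (ZMod.natCast_zmod_val _), fun h3 => h h3.2⟩

lemma FUNDE_per (a n : ℕ) : PerB (FUNDE_Q a n) 1 where
  per := by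
    intro p m
    unfold FUNDE_Q
    have h : p ∣ a + m * n ↔ p ∣ a + m % p * n := by
      have h1 : a + m * n ≡ a + m % p * n [MOD p] :=
        Nat.ModEq.add_left a ((Nat.mod_modEq m p).symm.mul_right n)
      exact h1.dvd_iff (dvd_refl p)
    rw [h]
  few := by
    intro p hp
    rw [FUNDE_nuB a n p hp]
    split_ifs <;> norm_num

lemma FUNDE_GG (y n : ℕ) : VV y ≤ GG y n := by
  unfold VV GG
  rw [prod_filter (s := (Icc 1 y).filter Nat.Prime)]
  apply prod_le_prod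
  · intro p hp
    rw [mem_filter, mem_Icc] at hp
    have : (1 : ℝ) ≤ p := by exact_mod_cast hp.1.1
    rw [sub_nonneg, div_le_one (by linarith)]
    exact this
  · intro p _
    have h0 : (0 : ℝ) ≤ 1 / (p : ℝ) := by positivity
    split_ifs <;> linarith

theorem t_FUNDE : S_FUNDE := by
  classical
  obtain ⟨C0, x0, hC0, hF⟩ := Pool.Agent.R490.P3a.sys_fundE 1 le_rfl
  refine ⟨8 * C0 * (C0 + 2) + 2, by omega, fun b => ⟨max x0 (2 ^ (b + 1)), fun y hy U hU a n han => ?_⟩⟩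
  have hyx : x0 ≤ y := le_trans (le_max_left _ _) hy
  have hy2 : 2 ^ (b + 1) ≤ y := le_trans (le_max_right _ _) hy
  have hy1 : 1 ≤ y := le_trans Nat.one_le_two_pow hy2
  have hyr : (1 : ℝ) ≤ y := by exact_mod_cast hy1
  have hy0 : (0 : ℝ) < y := by linarith
  set b' := C0 + b + 2 with hb'
  have key := hF b' (by omega) (y ^ (16 * (C0 * b'))) y hyx le_rfl (FUNDE_Q a n) (FUNDE_per a n) U 1 0 le_rfl
    (fun p hp h => (mem_pz.1 hp).2.one_lt.ne' (Nat.dvd_one.1 h))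
  have e1 : ((Icc 1 U).filter (fun m : ℕ => m ≡ 0 [MOD 1] ∧ ∀ p ∈ pz y, ¬ FUNDE_Q a n p m)).card = (SE a U y n).card := by
    unfold SE
    congr 1
    apply filter_congr
    intro m _
    constructor
    · rintro ⟨_, h⟩ p hp h2
      refine h p hp ⟨h2, fun h3 => ?_⟩
      exact han p hp h3.2 h3.1
    · intro h
      exact ⟨Nat.modEq_one, fun p hp h2 => h p hp h2.1⟩
  have e2 : ∏ p ∈ pz y, (1 - (nuB (FUNDE_Q a n) p : ℝ) / p) = GG y n := by
    unfold GG
    rw [prod_filter (s := (Icc 1 y).filter Nat.Prime)]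
    apply prod_congr rfl
    intro p hp
    rw [FUNDE_nuB a n p (mem_pz.1 hp).2]
    by_cases h : p ∣ n
    · rw [if_pos h, if_neg (not_not.2 h)]
      simp
    · rw [if_neg h, if_pos h, Nat.cast_one]
  have e3 : √((y ^ (16 * (C0 * b')) : ℕ) : ℝ) = (y : ℝ) ^ (8 * (C0 * b')) := by
    push_cast
    rw [show 16 * (C0 * b') = (8 * (C0 * b')) * 2 by ring, pow_mul]
    exact Real.sqrt_sq (by positivity)
  rw [e2, e3] at key
  have e4 : ((((Icc 1 U).filter (fun m : ℕ => m ≡ 0 [MOD 1] ∧ ∀ p ∈ pz y, ¬ FUNDE_Q a n p m)).card : ℕ) : ℝ) = ((SE a U y n).card : ℝ) := by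
    rw [e1]
  rw [Nat.cast_one, div_one] at key
  have k3 : |((SE a U y n).card : ℝ) - U * GG y n| ≤ (1 / 2 : ℝ) ^ b' * (U * GG y n) + (y : ℝ) ^ (8 * (C0 * b')) := by
    refine le_trans (le_of_eq ?_) key
    congr 2
    rw [← e4]
  have hVV := (FUND_VV y hy1).trans (FUNDE_GG y n)
  have hVV0 : 0 < GG y n := lt_of_lt_of_le (by positivity) hVV
  have hUr : (y : ℝ) ^ ((8 * C0 * (C0 + 2) + 2) * (b + 1)) ≤ U := by exact_mod_cast hU
  have hU0 : (0 : ℝ) < U := lt_of_lt_of_le (by positivity) hUr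
  have h5 : (y : ℝ) ^ (8 * (C0 * b')) ≤ (1 / 2 : ℝ) ^ (b + 1) * (U * GG y n) := by
    have h6 : (y : ℝ) ^ (8 * (C0 * b') + 2) ≤ U := by
      refine le_trans (pow_le_pow_right₀ hyr ?_) hUr
      rw [hb']
      nlinarith [Nat.zero_le (C0 * C0 * b), Nat.zero_le (C0 * b)]
    have h7 : 1 / (y : ℝ) ≤ (1 / 2 : ℝ) ^ (b + 1) := by
      rw [one_div_pow]
      apply one_div_le_one_div_of_le (by positivity)
      exact_mod_cast hy2
    calc (y : ℝ) ^ (8 * (C0 * b')) = (1 / y) * ((y : ℝ) ^ (8 * (C0 * b') + 2) * (1 / y)) := by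
          rw [pow_add]
          field_simp
      _ ≤ (1 / 2 : ℝ) ^ (b + 1) * (U * GG y n) := by
          apply mul_le_mul h7 _ (by positivity) (by positivity)
          exact mul_le_mul h6 hVV (by positivity) hU0.le
  have h8 : (1 / 2 : ℝ) ^ b' ≤ (1 / 2 : ℝ) ^ (b + 1) :=
    pow_le_pow_of_le_one (by norm_num) (by norm_num) (by omega)
  have h9 : (1 / 2 : ℝ) ^ b' * (U * GG y n) ≤ (1 / 2 : ℝ) ^ (b + 1) * (U * GG y n) :=
    mul_le_mul_of_nonneg_right h8 (by positivity)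
  have h10 : (1 / 2 : ℝ) ^ b = (1 / 2 : ℝ) ^ (b + 1) + (1 / 2 : ℝ) ^ (b + 1) := by
    rw [pow_succ]; ring
  rw [h10]
  linarith

end Pool.Agent.N422.EH
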