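import Pool.Agent.N422.EH.Stm
import Pool.Agent.N422.LG.REC
import Pool.Agent.N422.LG.RECU

/-! Project EH (helper422): the recursion over the scales for general initial sets (EH/RECG), by helper821,
after REC.lean (helper289) and RECU.lean (helper681). -/

set_option autoImplicit false

open Finset

namespace Pool.Agent.N422.EH

open Pool.Agent.N422.NW Pool.Agent.N422.SL Pool.Agent.N422.WS Pool.Agent.N422.LG Pool.Agent.N422.LR

lemma RECG_per {S : ℕ → Finset ℕ} {R : ℕ} (hS : ∀ n, S (n + R) = S n) (k n : ℕ) : S (n + R * k) = S n := by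
  induction k with
  | zero => simp
  | succ k ih => rw [Nat.mul_succ, ← add_assoc, hS, ih]

lemma RECG_RECR_dvd {y z : ℕ} (h : y ≤ z) : RECR y ∣ RECR z := by
  unfold RECR
  apply Finset.prod_dvd_prod_of_subset
  intro p hp
  simp only [mem_filter, mem_Icc] at hp ⊢
  exact ⟨⟨hp.1.1, hp.1.2.trans h⟩, hp.2⟩

/-- the set after the scale `z` -/
def RECGT (S : ℕ → Finset ℕ) (y z n : ℕ) : Finset ℕ := left (PQ z y) (S n) n

lemma RECGT_per {S : ℕ → Finset ℕ} {y : ℕ} (hS : ∀ n, S (n + PP y) = S n) {z : ℕ} (hyz : y ≤ z) (n : ℕ) :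
    RECGT S y z (n + RECR z) = RECGT S y z n := by
  have h1 : S (n + RECR z) = S n := by
    obtain ⟨k, hk⟩ := RECG_RECR_dvd hyz
    rw [hk]
    exact RECG_per (R := PP y) hS k n
  unfold RECGT left
  rw [h1]
  apply Finset.filter_congr
  intro h _
  apply forall₂_congr
  intro p hp
  have h2 : p ∣ RECR z := by
    unfold PQ at hp
    have h3 := mem_filter.1 hp
    exact Finset.dvd_prod_of_mem _ (mem_filter.2 ⟨h3.1, h3.2.1⟩)
  rw [not_iff_not, show n + RECR z + h = RECR z + (n + h) by ring]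
  exact Nat.dvd_add_right h2

lemma RECGT_sub (S : ℕ → Finset ℕ) (y z n : ℕ) : RECGT S y z n ⊆ S n := Finset.filter_subset _ _

lemma RECGT_left (S : ℕ → Finset ℕ) {y z z' : ℕ} (hyz : y ≤ z) (hzz : z ≤ z') (n : ℕ) :
    left ((Icc 1 z').filter (fun p : ℕ => p.Prime ∧ z < p)) (RECGT S y z n) n = RECGT S y z' n := by
  unfold left RECGT left PQ
  ext h
  simp only [mem_filter, mem_Icc]
  constructor
  · rintro ⟨⟨h1, h2⟩, h3⟩
    refine ⟨h1, fun p hp => ?_⟩
    by_cases hz : z < p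
    · exact h3 p ⟨hp.1, hp.2.1, hz⟩
    · exact h2 p ⟨⟨hp.1.1, by omega⟩, hp.2⟩
  · rintro ⟨h1, h2⟩
    exact ⟨⟨h1, fun p hp => h2 p ⟨⟨hp.1.1, hp.1.2.trans hzz⟩, hp.2⟩⟩,
      fun p hp => h2 p ⟨hp.1, hp.2.1, hyz.trans_lt hp.2.2⟩⟩

lemma RECGT_self (S : ℕ → Finset ℕ) (y n : ℕ) : RECGT S y y n = S n := by
  unfold RECGT left PQ
  apply Finset.filter_true_of_mem
  intro h _ p hp
  simp only [mem_filter, mem_Icc] at hp
  omega

/-- removing the hit numbers -/
lemma RECG_card (P S : Finset ℕ) (n : ℕ) : (S.card : ℝ) ≤ ((left P S n).card : ℝ) + hit P S n := by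
  classical
  have h : S ⊆ left P S n ∪ P.biUnion (fun p => S.filter (fun h => p ∣ n + h)) := by
    intro h hh
    by_cases hc : h ∈ left P S n
    · exact mem_union_left _ hc
    · apply mem_union_right
      have h2 : ∃ p ∈ P, p ∣ n + h := by
        by_contra hcon
        push Not at hcon
        exact hc (mem_filter.2 ⟨hh, hcon⟩)
      obtain ⟨p, hp, hpd⟩ := h2
      rw [mem_biUnion]
      exact ⟨p, hp, mem_filter.2 ⟨hh, hpd⟩⟩
  have h2 := (Finset.card_le_card h).trans (Finset.card_union_le _ _)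
  have h3 := h2.trans (Nat.add_le_add_left Finset.card_biUnion_le _)
  have h4 : (S.card : ℝ) ≤ (((left P S n).card + ∑ p ∈ P, (S.filter (fun h => p ∣ n + h)).card : ℕ) : ℝ) := by
    exact_mod_cast h3
  refine h4.trans (le_of_eq ?_)
  unfold hit
  push_cast
  ring

/-- one step of the recursion -/
lemma RECG_step (hH : S_HIT) (Q U y z z' : ℕ) (δ : ℝ) (c : ℕ → ℕ → ℝ) (S : ℕ → Finset ℕ)
    (hS : ∀ n, S (n + PP y) = S n) (hSU : ∀ n, S n ⊆ Icc 1 U) (hy : 2 ≤ y) (hyz : y ≤ z) (hzz : z ≤ z')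
    (hzQ : z' ≤ Q) (hδ : 0 < δ) (hδ1 : δ ≤ 1 / 16) (hw : ∀ n, 0 ≤ wt Q c n) :
    (1 - (1 + 2 * δ) * RECD z' z) * mQ Q (fun n => wt Q c n * ((RECGT S y z n).card : ℝ)) -
      ((U / y + 1) * (20 * (Real.log Q / Real.log y) / δ)) * mQ Q (wt Q c) ≤
    mQ Q (fun n => wt Q c n * ((RECGT S y z' n).card : ℝ)) := by
  have h1 := hH Q U (RECR z) (z : ℝ) δ ((Icc 1 z').filter (fun p : ℕ => p.Prime ∧ z < p)) (fun n => RECGT S y z n) c
    (by exact_mod_cast (by omega : 1 < z)) hδ (by linarith) (RECR_pos z) (RECR_dvd (hzz.trans hzQ))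
    (fun p hp => by
      have h1 := mem_filter.1 hp
      refine ⟨h1.2.1, by exact_mod_cast h1.2.2, (mem_Icc.1 h1.1).2.trans hzQ, RECR_not h1.2.1 h1.2.2⟩)
    (fun n => RECGT_per hS hyz n) (fun n => (RECGT_sub S y z n).trans (hSU n)) hw
  have h2 : mQ Q (fun n => wt Q c n * ((RECGT S y z n).card : ℝ)) ≤
      mQ Q (fun n => wt Q c n * ((RECGT S y z' n).card : ℝ)) +
      mQ Q (fun n => wt Q c n * hit ((Icc 1 z').filter (fun p : ℕ => p.Prime ∧ z < p)) (RECGT S y z n) n) := by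
    rw [← REC_mQ_add]
    apply REC_mQ_mono
    intro n
    rw [← mul_add]
    have hc := RECG_card ((Icc 1 z').filter (fun p : ℕ => p.Prime ∧ z < p)) (RECGT S y z n) n
    rw [RECGT_left S hyz hzz n] at hc
    exact mul_le_mul_of_nonneg_left hc (hw n)
  have hB : 0 ≤ mQ Q (wt Q c) := REC_mQ_nonneg hw
  have h3 : (1 + 2 * δ) * ((U / (z : ℝ) + 1) * (10 * (Real.log Q / Real.log z) / δ)) ≤
      (U / y + 1) * (20 * (Real.log Q / Real.log y) / δ) := by
    have hy0 : (0 : ℝ) < y := by exact_mod_cast (by omega : 0 < y)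
    have hyz' : (y : ℝ) ≤ z := by exact_mod_cast hyz
    have hlog : 0 < Real.log y := Real.log_pos (by exact_mod_cast (by omega : 1 < y))
    have hlog2 : Real.log y ≤ Real.log z := Real.log_le_log hy0 hyz'
    have hQ : 0 ≤ Real.log Q := Real.log_natCast_nonneg Q
    have a1 : (U : ℝ) / z + 1 ≤ U / y + 1 := by
      have := div_le_div_of_nonneg_left (Nat.cast_nonneg U) hy0 hyz'
      linarith
    have a2 : Real.log Q / Real.log z ≤ Real.log Q / Real.log y := div_le_div_of_nonneg_left hQ hlog hlog2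
    have a3 : 0 ≤ Real.log Q / Real.log z := div_nonneg hQ (hlog.le.trans hlog2)
    have a4 : 10 * (Real.log Q / Real.log z) / δ ≤ 10 * (Real.log Q / Real.log y) / δ :=
      div_le_div_of_nonneg_right (by linarith) hδ.le
    have a5 : (U / (z : ℝ) + 1) * (10 * (Real.log Q / Real.log z) / δ) ≤
        (U / y + 1) * (10 * (Real.log Q / Real.log y) / δ) :=
      mul_le_mul a1 a4 (by positivity) (by positivity)
    calc (1 + 2 * δ) * ((U / (z : ℝ) + 1) * (10 * (Real.log Q / Real.log z) / δ))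
        ≤ 2 * ((U / y + 1) * (10 * (Real.log Q / Real.log y) / δ)) :=
          mul_le_mul (by linarith) a5 (by positivity) (by norm_num)
      _ = (U / y + 1) * (20 * (Real.log Q / Real.log y) / δ) := by ring
  have h4 := mul_le_mul_of_nonneg_right h3 hB
  have h5 : RECD z' z = ∑ p ∈ (Icc 1 z').filter (fun p : ℕ => p.Prime ∧ z < p), 1 / (p : ℝ) := rfl
  rw [← h5] at h1
  have h6 : (1 + 2 * δ) * (RECD z' z * mQ Q (fun n => wt Q c n * ((RECGT S y z n).card : ℝ)) +
      (U / (z : ℝ) + 1) * (10 * (Real.log Q / Real.log z) / δ) * mQ Q (wt Q c)) =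
      (1 + 2 * δ) * RECD z' z * mQ Q (fun n => wt Q c n * ((RECGT S y z n).card : ℝ)) +
      (1 + 2 * δ) * ((U / (z : ℝ) + 1) * (10 * (Real.log Q / Real.log z) / δ)) * mQ Q (wt Q c) := by ring
  rw [h6] at h1
  linarith

/-- one step of the recursion -/
lemma RECG_ustep (hH : S_HITU) (Q U y z z' : ℕ) (δ : ℝ) (c : ℕ → ℕ → ℝ) (S : ℕ → Finset ℕ)
    (hS : ∀ n, S (n + PP y) = S n) (hSU : ∀ n, S n ⊆ Icc 1 U) (hy : 2 ≤ y) (hyz : y ≤ z) (hzz : z ≤ z')
    (hzQ : z' ≤ Q) (hδ : 0 < δ) (hδ1 : δ ≤ 1 / 16) (hw : ∀ n, 0 ≤ wt Q c n) :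
    (1 + (1 - 2 * δ) * RECD z' z) * mQ Q (fun n => wt Q c n * ((RECGT S y z' n).card : ℝ)) ≤
    mQ Q (fun n => wt Q c n * ((RECGT S y z n).card : ℝ)) +
      ((U / y + 1) * (2 * (Real.log Q / Real.log y) / δ)) * mQ Q (wt Q c) := by
  have h1 := hH Q U (RECR z) z δ ((Icc 1 z').filter (fun p : ℕ => p.Prime ∧ z < p)) (fun n => RECGT S y z n) c
    (by omega) hδ (by linarith) (RECR_pos z) (RECR_dvd (hzz.trans hzQ))
    (fun p hp => by
      have h1 := mem_filter.1 hp
      exact ⟨h1.2.1, h1.2.2, (mem_Icc.1 h1.1).2.trans hzQ, RECR_not h1.2.1 h1.2.2⟩)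
    (fun n => RECGT_per hS hyz n) (fun n => (RECGT_sub S y z n).trans (hSU n)) hw
  simp only [RECGT_left S hyz hzz] at h1
  have hB : 0 ≤ mQ Q (wt Q c) := REC_mQ_nonneg hw
  have h3 : (U / (z : ℝ) + 1) * (2 * (Real.log Q / Real.log z) / δ) ≤
      (U / y + 1) * (2 * (Real.log Q / Real.log y) / δ) := by
    have hy0 : (0 : ℝ) < y := by exact_mod_cast (by omega : 0 < y)
    have hyz' : (y : ℝ) ≤ z := by exact_mod_cast hyz
    have hlog : 0 < Real.log y := Real.log_pos (by exact_mod_cast (by omega : 1 < y))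
    have hlog2 : Real.log y ≤ Real.log z := Real.log_le_log hy0 hyz'
    have hQ : 0 ≤ Real.log Q := Real.log_natCast_nonneg Q
    have a1 : (U : ℝ) / z + 1 ≤ U / y + 1 := by
      have := div_le_div_of_nonneg_left (Nat.cast_nonneg U) hy0 hyz'
      linarith
    have a2 : Real.log Q / Real.log z ≤ Real.log Q / Real.log y := div_le_div_of_nonneg_left hQ hlog hlog2
    have a3 : 0 ≤ Real.log Q / Real.log z := div_nonneg hQ (hlog.le.trans hlog2)
    have a4 : 2 * (Real.log Q / Real.log z) / δ ≤ 2 * (Real.log Q / Real.log y) / δ :=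
      div_le_div_of_nonneg_right (by linarith) hδ.le
    exact mul_le_mul a1 a4 (by positivity) (by positivity)
  have h4 := mul_le_mul_of_nonneg_right h3 hB
  have h5 : RECD z' z = ∑ p ∈ (Icc 1 z').filter (fun p : ℕ => p.Prime ∧ z < p), 1 / (p : ℝ) := rfl
  rw [← h5] at h1
  linarith

/-- the lower bound -/
lemma RECG_low (h : S_HIT) (Q U y : ℕ) (δ : ℝ) (c : ℕ → ℕ → ℝ) (S : ℕ → Finset ℕ) (hy : 2 ≤ y) (hyQ : y ≤ Q)
    (hδ : 0 < δ) (hδ1 : δ ≤ 1 / 16) (hyδ : 1 / (y : ℝ) ≤ δ) (hS : ∀ n, S (n + PP y) = S n)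
    (hSU : ∀ n, S n ⊆ Icc 1 U) (hw : ∀ n, 0 ≤ wt Q c n) :
    Real.exp (-((1 + 8 * δ) * RECD Q y)) * mQ Q (fun n => wt Q c n * ((RECGT S y y n).card : ℝ)) -
      (RECD Q y / δ + 1) * ((U / y + 1) * (20 * (Real.log Q / Real.log y) / δ)) * mQ Q (wt Q c) ≤
    mQ Q (fun n => wt Q c n * ((RECGT S y Q n).card : ℝ)) := by
  have hy0 : (0 : ℝ) < y := by exact_mod_cast (by omega : 0 < y)
  have hB : 0 ≤ mQ Q (wt Q c) := REC_mQ_nonneg hw
  obtain ⟨E, hE⟩ : ∃ E : ℝ, E = (U / y + 1) * (20 * (Real.log Q / Real.log y) / δ) := ⟨_, rfl⟩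
  have hE0 : 0 ≤ E := by
    rw [hE]
    have hlog : 0 < Real.log y := Real.log_pos (by exact_mod_cast (by omega : 1 < y))
    have hQ : 0 ≤ Real.log Q := Real.log_natCast_nonneg Q
    positivity
  obtain ⟨A, hA⟩ : ∃ A : ℕ → ℝ, ∀ z, A z = mQ Q (fun n => wt Q c n * ((RECGT S y z n).card : ℝ)) := ⟨_, fun _ => rfl⟩
  have hA0 : ∀ z, 0 ≤ A z := fun z => by
    rw [hA]
    exact REC_mQ_nonneg (fun n => mul_nonneg (hw n) (Nat.cast_nonneg _))
  have hEB : 0 ≤ E * mQ Q (wt Q c) := mul_nonneg hE0 hB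
  have step : ∀ z z', y ≤ z → z ≤ z' → z' ≤ Q → RECD z' z ≤ 2 * δ →
      Real.exp (-((1 + 8 * δ) * RECD z' z)) * A z - E * mQ Q (wt Q c) ≤ A z' := by
    intro z z' h1 h2 h3 h4
    have h5 := RECG_step h Q U y z z' δ c S hS hSU hy h1 h2 h3 hδ hδ1 hw
    rw [← hA, ← hA, ← hE] at h5
    have h6 := mul_le_mul_of_nonneg_right (REC_factor hδ hδ1 (RECD_nonneg z' z) h4) (hA0 z)
    linarith
  have main : ∀ k z, Q - z = k → y ≤ z → z ≤ Q →
      Real.exp (-((1 + 8 * δ) * RECD Q z)) * A z - (RECD Q z / δ + 1) * E * mQ Q (wt Q c) ≤ A Q := by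
    intro k
    induction k using Nat.strong_induction_on with
    | _ k ih =>
      intro z hk hyz hzQ
      by_cases hD : RECD Q z ≤ δ
      · have h1 := step z Q hyz hzQ le_rfl (by linarith)
        have h2 : 0 ≤ RECD Q z / δ * (E * mQ Q (wt Q c)) :=
          mul_nonneg (div_nonneg (RECD_nonneg Q z) hδ.le) hEB
        have h3 : (RECD Q z / δ + 1) * E * mQ Q (wt Q c) =
          RECD Q z / δ * (E * mQ Q (wt Q c)) + E * mQ Q (wt Q c) := by ring
        rw [h3]
        linarith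
      · rw [not_le] at hD
        classical
        have hex : ∃ z', z ≤ z' ∧ δ < RECD z' z := ⟨Q, hzQ, hD⟩
        obtain ⟨z', hz', hmin⟩ : ∃ z', (z ≤ z' ∧ δ < RECD z' z) ∧ ∀ m < z', ¬ (z ≤ m ∧ δ < RECD m z) :=
          ⟨Nat.find hex, Nat.find_spec hex, fun m hm => Nat.find_min hex hm⟩
        have hzQ' : z' ≤ Q := by
          by_contra hcon
          exact hmin Q (not_le.1 hcon) ⟨hzQ, hD⟩
        have hne : z ≠ z' := by
          rintro rfl
          have := hz'.2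
          rw [RECD_self] at this
          linarith
        have hlt : z < z' := lt_of_le_of_ne hz'.1 hne
        obtain ⟨m, rfl⟩ : ∃ m, z' = m + 1 := ⟨z' - 1, by omega⟩
        have hm : RECD m z ≤ δ := by
          have := hmin m (by omega)
          push Not at this
          exact this (by omega)
        have h2 : RECD (m + 1) z ≤ 2 * δ := by
          have h3 := RECD_succ z m
          have h4 : 1 / ((m : ℝ) + 1) ≤ 1 / (y : ℝ) := by
            apply one_div_le_one_div_of_le hy0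
            exact_mod_cast (by omega : y ≤ m + 1)
          linarith
        have h3 := step z (m + 1) hyz hlt.le hzQ' h2
        have h4 := ih (Q - (m + 1)) (by omega) (m + 1) rfl (by omega) hzQ'
        have h5 := RECD_add hlt.le hzQ'
        have h6 : Real.exp (-((1 + 8 * δ) * RECD Q z)) =
            Real.exp (-((1 + 8 * δ) * RECD Q (m + 1))) * Real.exp (-((1 + 8 * δ) * RECD (m + 1) z)) := by
          rw [← Real.exp_add, h5]
          congr 1
          ring
        have h7 : Real.exp (-((1 + 8 * δ) * RECD Q (m + 1))) ≤ 1 := by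
          rw [Real.exp_le_one_iff]
          have := RECD_nonneg Q (m + 1)
          have h8 : 0 ≤ (1 + 8 * δ) * RECD Q (m + 1) := by positivity
          linarith
        have h8 := mul_le_mul_of_nonneg_left h3 (Real.exp_pos (-((1 + 8 * δ) * RECD Q (m + 1)))).le
        rw [mul_sub, ← mul_assoc, ← h6] at h8
        have h9 : Real.exp (-((1 + 8 * δ) * RECD Q (m + 1))) * (E * mQ Q (wt Q c)) ≤ E * mQ Q (wt Q c) :=
          mul_le_of_le_one_left hEB h7
        have h10 : (RECD Q (m + 1) / δ + 2) * (E * mQ Q (wt Q c)) ≤ (RECD Q z / δ + 1) * (E * mQ Q (wt Q c)) := by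
          apply mul_le_mul_of_nonneg_right _ hEB
          rw [h5, add_div]
          have h11 : 1 ≤ RECD (m + 1) z / δ := by
            rw [le_div_iff₀ hδ]
            linarith [hz'.2]
          linarith
        have h12 : (RECD Q z / δ + 1) * E * mQ Q (wt Q c) = (RECD Q z / δ + 1) * (E * mQ Q (wt Q c)) := by ring
        have h13 : (RECD Q (m + 1) / δ + 1) * E * mQ Q (wt Q c) + E * mQ Q (wt Q c) =
          (RECD Q (m + 1) / δ + 2) * (E * mQ Q (wt Q c)) := by ring
        rw [h12]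
        linarith
  have h1 := main (Q - y) y rfl le_rfl hyQ
  rw [hA, hA, hE] at h1
  exact h1

/-- the upper bound -/
lemma RECG_up (h : S_HITU) (Q U y : ℕ) (δ : ℝ) (c : ℕ → ℕ → ℝ) (S : ℕ → Finset ℕ) (hy : 2 ≤ y) (hyQ : y ≤ Q)
    (hδ : 0 < δ) (hδ1 : δ ≤ 1 / 16) (hyδ : 1 / (y : ℝ) ≤ δ) (hS : ∀ n, S (n + PP y) = S n)
    (hSU : ∀ n, S n ⊆ Icc 1 U) (hw : ∀ n, 0 ≤ wt Q c n) :
    mQ Q (fun n => wt Q c n * ((RECGT S y Q n).card : ℝ)) ≤
    Real.exp (-((1 - 3 * δ) * RECD Q y)) * mQ Q (fun n => wt Q c n * ((RECGT S y y n).card : ℝ)) +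
      (RECD Q y / δ + 1) * ((U / y + 1) * (2 * (Real.log Q / Real.log y) / δ)) * mQ Q (wt Q c) := by
  have hy0 : (0 : ℝ) < y := by exact_mod_cast (by omega : 0 < y)
  have hB : 0 ≤ mQ Q (wt Q c) := REC_mQ_nonneg hw
  obtain ⟨E, hE⟩ : ∃ E : ℝ, E = (U / y + 1) * (2 * (Real.log Q / Real.log y) / δ) := ⟨_, rfl⟩
  have hE0 : 0 ≤ E := by
    rw [hE]
    have hlog : 0 < Real.log y := Real.log_pos (by exact_mod_cast (by omega : 1 < y))
    have hQ : 0 ≤ Real.log Q := Real.log_natCast_nonneg Q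
    positivity
  obtain ⟨A, hA⟩ : ∃ A : ℕ → ℝ, ∀ z, A z = mQ Q (fun n => wt Q c n * ((RECGT S y z n).card : ℝ)) := ⟨_, fun _ => rfl⟩
  have hA0 : ∀ z, 0 ≤ A z := fun z => by
    rw [hA]
    exact REC_mQ_nonneg (fun n => mul_nonneg (hw n) (Nat.cast_nonneg _))
  have hEB : 0 ≤ E * mQ Q (wt Q c) := mul_nonneg hE0 hB
  have hexp : ∀ a : ℝ, 0 ≤ a → Real.exp (-((1 - 3 * δ) * a)) ≤ 1 := by
    intro a ha
    rw [Real.exp_le_one_iff]
    have : 0 ≤ (1 - 3 * δ) * a := mul_nonneg (by linarith) ha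
    linarith
  have step : ∀ z z', y ≤ z → z ≤ z' → z' ≤ Q → RECD z' z ≤ 2 * δ →
      A z' ≤ Real.exp (-((1 - 3 * δ) * RECD z' z)) * A z + E * mQ Q (wt Q c) := by
    intro z z' h1 h2 h3 h4
    have h5 := RECG_ustep h Q U y z z' δ c S hS hSU hy h1 h2 h3 hδ hδ1 hw
    rw [← hA, ← hA, ← hE] at h5
    have hD := RECD_nonneg z' z
    have h6 := mul_le_mul_of_nonneg_right (RECU_factor hδ hδ1 hD h4) (hA0 z')
    have h7 := mul_le_mul_of_nonneg_left h5 (Real.exp_pos (-((1 - 3 * δ) * RECD z' z))).le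
    have h8 := mul_le_mul_of_nonneg_right (hexp _ hD) hEB
    rw [mul_add] at h7
    rw [one_mul] at h6 h8
    rw [← mul_assoc] at h7
    linarith
  have main : ∀ k z, Q - z = k → y ≤ z → z ≤ Q →
      A Q ≤ Real.exp (-((1 - 3 * δ) * RECD Q z)) * A z + (RECD Q z / δ + 1) * E * mQ Q (wt Q c) := by
    intro k
    induction k using Nat.strong_induction_on with
    | _ k ih =>
      intro z hk hyz hzQ
      by_cases hD : RECD Q z ≤ δ
      · have h1 := step z Q hyz hzQ le_rfl (by linarith)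
        have h2 : 0 ≤ RECD Q z / δ * (E * mQ Q (wt Q c)) :=
          mul_nonneg (div_nonneg (RECD_nonneg Q z) hδ.le) hEB
        have h3 : (RECD Q z / δ + 1) * E * mQ Q (wt Q c) =
          RECD Q z / δ * (E * mQ Q (wt Q c)) + E * mQ Q (wt Q c) := by ring
        rw [h3]
        linarith
      · rw [not_le] at hD
        classical
        have hex : ∃ z', z ≤ z' ∧ δ < RECD z' z := ⟨Q, hzQ, hD⟩
        obtain ⟨z', hz', hmin⟩ : ∃ z', (z ≤ z' ∧ δ < RECD z' z) ∧ ∀ m < z', ¬ (z ≤ m ∧ δ < RECD m z) :=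
          ⟨Nat.find hex, Nat.find_spec hex, fun m hm => Nat.find_min hex hm⟩
        have hzQ' : z' ≤ Q := by
          by_contra hcon
          exact hmin Q (not_le.1 hcon) ⟨hzQ, hD⟩
        have hne : z ≠ z' := by
          rintro rfl
          have := hz'.2
          rw [RECD_self] at this
          linarith
        have hlt : z < z' := lt_of_le_of_ne hz'.1 hne
        obtain ⟨m, rfl⟩ : ∃ m, z' = m + 1 := ⟨z' - 1, by omega⟩
        have hm : RECD m z ≤ δ := by
          have := hmin m (by omega)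
          push Not at this
          exact this (by omega)
        have h2 : RECD (m + 1) z ≤ 2 * δ := by
          have h3 := RECD_succ z m
          have h4 : 1 / ((m : ℝ) + 1) ≤ 1 / (y : ℝ) := by
            apply one_div_le_one_div_of_le hy0
            exact_mod_cast (by omega : y ≤ m + 1)
          linarith
        have h3 := step z (m + 1) hyz hlt.le hzQ' h2
        have h4 := ih (Q - (m + 1)) (by omega) (m + 1) rfl (by omega) hzQ'
        have h5 := RECD_add hlt.le hzQ'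
        have h6 : Real.exp (-((1 - 3 * δ) * RECD Q z)) =
            Real.exp (-((1 - 3 * δ) * RECD Q (m + 1))) * Real.exp (-((1 - 3 * δ) * RECD (m + 1) z)) := by
          rw [← Real.exp_add, h5]
          congr 1
          ring
        have h7 := hexp _ (RECD_nonneg Q (m + 1))
        have h8 := mul_le_mul_of_nonneg_left h3 (Real.exp_pos (-((1 - 3 * δ) * RECD Q (m + 1)))).le
        rw [mul_add, ← mul_assoc, ← h6] at h8
        have h9 : Real.exp (-((1 - 3 * δ) * RECD Q (m + 1))) * (E * mQ Q (wt Q c)) ≤ E * mQ Q (wt Q c) :=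
          mul_le_of_le_one_left hEB h7
        have h10 : (RECD Q (m + 1) / δ + 2) * (E * mQ Q (wt Q c)) ≤ (RECD Q z / δ + 1) * (E * mQ Q (wt Q c)) := by
          apply mul_le_mul_of_nonneg_right _ hEB
          rw [h5, add_div]
          have h11 : 1 ≤ RECD (m + 1) z / δ := by
            rw [le_div_iff₀ hδ]
            linarith [hz'.2]
          linarith
        have h12 : (RECD Q z / δ + 1) * E * mQ Q (wt Q c) = (RECD Q z / δ + 1) * (E * mQ Q (wt Q c)) := by ring
        have h13 : (RECD Q (m + 1) / δ + 1) * E * mQ Q (wt Q c) + E * mQ Q (wt Q c) =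
          (RECD Q (m + 1) / δ + 2) * (E * mQ Q (wt Q c)) := by ring
        rw [h12]
        linarith
  have h1 := main (Q - y) y rfl le_rfl hyQ
  rw [hA, hA, hE] at h1
  exact h1

theorem t_RECG (h1 : LG.S_HIT) (h2 : LG.S_HITU) : S_RECG := by
  intro Q U y δ c S hy hyQ hδ hδ1 hyδ hS hSU hw
  have a1 := RECG_low h1 Q U y δ c S hy hyQ hδ hδ1 hyδ hS hSU hw
  have a2 := RECG_up h2 Q U y δ c S hy hyQ hδ hδ1 hyδ hS hSU hw
  simp only [RECGT_self] at a1 a2
  exact ⟨a1, a2⟩

end Pool.Agent.N422.EH
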