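import Pool.Agent.N422.EH.Stm

/-! EH/XB (helper453): few large prime factors under a nonnegative weight. -/

set_option autoImplicit false

open Finset

namespace Pool.Agent.N422.EH

open Pool.Agent.N422.NW Pool.Agent.N422.SL Pool.Agent.N422.WS Pool.Agent.N422.LG Pool.Agent.N422.LR

lemma XB_shift (N : ℕ) (G : ℕ → ℝ) (hG : G N = G 0) :
    ∑ n ∈ range N, G (n + 1) = ∑ n ∈ range N, G n := by
  have h1 := Finset.sum_range_succ' G N
  rw [Finset.sum_range_succ, hG] at h1
  linarith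

lemma XB_mod (Q d : ℕ) (hd : d ∈ Icc 1 Q) : Q.factorial % d = 0 := by
  rw [Finset.mem_Icc] at hd
  exact Nat.mod_eq_zero_of_dvd (Nat.dvd_factorial hd.1 hd.2)

lemma XB_wt0 (Q : ℕ) (c : ℕ → ℕ → ℝ) : wt Q c Q.factorial = wt Q c 0 := by
  unfold wt
  refine Finset.sum_congr rfl fun d hd => ?_
  rw [XB_mod Q d hd, Nat.zero_mod]

lemma XB_wt1 (Q : ℕ) (c : ℕ → ℕ → ℝ) (n : ℕ) :
    wt Q (fun d u => c d ((u + 1) % d)) n = wt Q c (n + 1) := by
  unfold wt
  refine Finset.sum_congr rfl fun d _ => ?_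
  simp only [Nat.mod_add_mod]

lemma XB_hit (P : Finset ℕ) (n : ℕ) : hit P {1} n = ((P.filter (fun p => p ∣ n + 1)).card : ℝ) := by
  unfold hit
  rw [Finset.card_filter]
  push_cast
  refine Finset.sum_congr rfl fun p _ => ?_
  by_cases h : p ∣ n + 1
  · rw [if_pos h, Finset.filter_true_of_mem (by intro x hx; rw [Finset.mem_singleton] at hx; rwa [hx])]
    simp
  · rw [if_neg h, Finset.filter_false_of_mem (by intro x hx; rw [Finset.mem_singleton] at hx; rwa [hx])]
    simp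

lemma XB_mono (Q : ℕ) (F G : ℕ → ℝ) (h : ∀ n, F n ≤ G n) : mQ Q F ≤ mQ Q G := by
  unfold mQ
  gcongr
  exact h _

lemma XB_mul (Q : ℕ) (F : ℕ → ℝ) (a : ℝ) : mQ Q (fun n => a * F n) = a * mQ Q F := by
  unfold mQ
  rw [← Finset.mul_sum, mul_div_assoc]

theorem t_XB (h : S_HIT) : S_XB := by
  intro Q y c hy hyQ hc
  have hy2 : (2 : ℝ) ≤ y := by exact_mod_cast hy
  have hy0 : (0 : ℝ) < y := by linarith
  set P := PQ Q y with hP
  have hPm : ∀ p ∈ P, p.Prime ∧ (y : ℝ) < p ∧ p ≤ Q ∧ ¬ p ∣ 1 := by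
    intro p hp
    rw [hP, PQ, Finset.mem_filter, Finset.mem_Icc] at hp
    exact ⟨hp.2.1, by exact_mod_cast hp.2.2, hp.1.2, fun h1 => hp.2.1.one_lt.ne' (Nat.dvd_one.1 h1)⟩
  have h1 := h Q 1 1 (y : ℝ) (1 / 2) P (fun _ => {1}) (fun d u => c d ((u + 1) % d)) (by linarith)
    (by norm_num) le_rfl one_pos (one_dvd _) hPm (fun n => rfl) (fun n => by simp)
    (fun n => by rw [XB_wt1]; exact hc _)
  -- the count of the prime factors
  set G : ℕ → ℝ := fun n => wt Q c n * ((P.filter (fun p => p ∣ n)).card : ℝ) with hG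
  have hG0 : G Q.factorial = G 0 := by
    simp only [hG, XB_wt0]
    congr 2
    congr 1
    refine Finset.filter_congr fun p hp => ?_
    have h2 := hPm p hp
    exact ⟨fun _ => dvd_zero p, fun _ => Nat.dvd_factorial h2.1.pos h2.2.2.1⟩
  have e1 : mQ Q (fun n => wt Q (fun d u => c d ((u + 1) % d)) n * hit P {1} n) = mQ Q G := by
    unfold mQ
    rw [← XB_shift Q.factorial G hG0]
    congr 1
    refine Finset.sum_congr rfl fun n _ => ?_
    simp only [XB_wt1, XB_hit, hG]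
  have e2 : mQ Q (wt Q (fun d u => c d ((u + 1) % d))) = mQ Q (wt Q c) := by
    unfold mQ
    rw [← XB_shift Q.factorial (wt Q c) (XB_wt0 Q c)]
    congr 1
    refine Finset.sum_congr rfl fun n _ => ?_
    rw [XB_wt1]
  have e3 : mQ Q (fun n => wt Q (fun d u => c d ((u + 1) % d)) n * ((({1} : Finset ℕ).card : ℕ) : ℝ)) =
      mQ Q (wt Q c) := by
    rw [← e2]
    congr 1
    ext n
    simp
  rw [e1, e2, e3] at h1
  have hm0 : 0 ≤ mQ Q (wt Q c) := by
    unfold mQ
    exact div_nonneg (Finset.sum_nonneg fun n _ => hc n) (by positivity)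
  have hΛ : 0 ≤ Real.log Q / Real.log y := by
    apply div_nonneg
    · exact Real.log_natCast_nonneg Q
    · exact Real.log_natCast_nonneg y
  have h2 : mQ Q G ≤ (2 * (∑ p ∈ P, 1 / (p : ℝ)) + 60 * (Real.log Q / Real.log y)) *
      mQ Q (wt Q c) := by
    refine h1.trans ?_
    have h3 : ((1 : ℕ) : ℝ) / y ≤ 1 / 2 := by
      rw [Nat.cast_one]
      exact one_div_le_one_div_of_le (by norm_num) hy2
    have h4 : (((1 : ℕ) : ℝ) / y + 1) * (Real.log Q / Real.log y) ≤
        3 / 2 * (Real.log Q / Real.log y) := mul_le_mul_of_nonneg_right (by linarith) hΛ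
    have h5 := mul_le_mul_of_nonneg_right h4 hm0
    nlinarith [h5]
  have h6 : mQ Q (fun n => wt Q c n * XX Q y n) ≤ (1 / y) * mQ Q G := by
    rw [← XB_mul]
    refine XB_mono Q _ _ fun n => ?_
    have h7 : XX Q y n ≤ (1 / y) * ((P.filter (fun p => p ∣ n)).card : ℝ) := by
      unfold XX
      rw [mul_comm, ← nsmul_eq_mul]
      refine Finset.sum_le_card_nsmul _ _ _ fun p hp => ?_
      have h8 := hPm p (Finset.mem_filter.1 hp).1
      exact one_div_le_one_div_of_le hy0 h8.2.1.le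
    calc wt Q c n * XX Q y n ≤ wt Q c n * ((1 / y) * ((P.filter (fun p => p ∣ n)).card : ℝ)) :=
          mul_le_mul_of_nonneg_left h7 (hc n)
      _ = 1 / y * G n := by simp only [hG]; ring
  refine h6.trans ?_
  rw [mul_assoc]
  exact mul_le_mul_of_nonneg_left h2 (by positivity)

end Pool.Agent.N422.EH
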