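import Pool.Agent.N422.EH.SQF2
import Pool.Agent.N422.EH.BACK
import Pool.Agent.N422.EH.PERM
import Pool.Agent.N422.EH.FUNDE
import Pool.Agent.N422.EH.RECG
import Pool.Agent.N422.EH.XB
import Pool.Agent.N422.EH.EHM
import Pool.Agent.N422.EH.EHF
import Pool.Agent.N422.LG.ALL
import Pool.Agent.N422.LG.ALL4

/-! Project EH: assembly for nonnegative weights. Author: helper422 (parts: helpers 767, 67, 263, 297, 821, 453, 505, 722;
LG: see `LG/ALL`, `LG/ALL4`). -/

set_option autoImplicit false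

namespace Pool.Agent.N422.EH

open Finset Pool.Agent.N422.NW Pool.Agent.N422.SL Pool.Agent.N422.WS Pool.Agent.N422.LG Pool.Agent.N422.LR

theorem ehf_all : S_EHF :=
  t_EHF (t_EHM t_SQF2 t_BACK t_PERM (t_RECG LG.hit_all LG.hitu_all)) t_FUNDE (t_XB LG.hit_all) t_MERB

end Pool.Agent.N422.EH
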