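import Pool.Agent.N422.EH.Stm
import Pool.Agent.N422.LR.SQF

/-! Project EH (helper422): reduction to squarefree moduli, general form (EH/SQF2), by helper767 (after LR/SQF by
helper703). -/

set_option autoImplicit false

open Finset

namespace Pool.Agent.N422.EH

open Pool.Agent.N422.NW Pool.Agent.N422.SL Pool.Agent.N422.WS Pool.Agent.N422.LG Pool.Agent.N422.LR

/-- the function of squarefree level is a mean of the given function (construction of `t_SQF`) -/
lemma SQF2_key (Q : ℕ) (c : ℕ → ℕ → ℝ) (K : ℕ) (hK : Q.factorial = PP Q * K) (hKpos : 0 < K) :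
    ∃ c' : ℕ → ℕ → ℝ, ∀ n : ℕ, ws Q c' n = (∑ k ∈ range K, wt Q c (n + k * PP Q)) / (K : ℝ) := by
  classical
  set P := PP Q with hP
  let c' : ℕ → ℕ → ℝ := fun g a => ∑ d ∈ (Icc 1 Q).filter (fun d => Nat.gcd d P = g),
    ((Nat.gcd d P : ℕ) : ℝ) / d * ∑ b ∈ (range d).filter (fun b => b % Nat.gcd d P = a % Nat.gcd d P), c d b
  refine ⟨c', fun n => ?_⟩
  have h1 : (∑ k ∈ range K, wt Q c (n + k * P)) / (K : ℝ) =
      ∑ d ∈ Icc 1 Q, ((Nat.gcd d P : ℕ) : ℝ) / d *
        ∑ b ∈ (range d).filter (fun b => b % Nat.gcd d P = n % Nat.gcd d P), c d b := by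
    unfold wt
    rw [Finset.sum_comm, Finset.sum_div]
    apply Finset.sum_congr rfl
    intro d hd
    have hd1 := Finset.mem_Icc.1 hd
    apply SQF_avg d P K n (c d) (by omega) hKpos
    rw [← hK]
    exact Nat.dvd_factorial (by omega) hd1.2
  rw [h1]
  have hmaps : ∀ d ∈ Icc 1 Q, Nat.gcd d P ∈ (Icc 1 Q).filter Squarefree := by
    intro d hd
    have hd1 := Finset.mem_Icc.1 hd
    rw [Finset.mem_filter, Finset.mem_Icc]
    refine ⟨⟨Nat.gcd_pos_of_pos_left _ (by omega), le_trans (Nat.gcd_le_left _ (by omega)) hd1.2⟩, ?_⟩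
    exact (SQF_PP_sq Q).squarefree_of_dvd (Nat.gcd_dvd_right d P)
  rw [← Finset.sum_fiberwise_of_maps_to hmaps]
  unfold ws
  apply Finset.sum_congr rfl
  intro g hg
  apply Finset.sum_congr rfl
  intro d hd
  have hdg : Nat.gcd d P = g := (Finset.mem_filter.1 hd).2
  rw [hdg]
  simp only [Nat.mod_mod]

/-- reduction to squarefree moduli, general form -/
theorem t_SQF2 : S_SQF2 := by
  intro Q c hQ
  classical
  obtain ⟨K, hK⟩ : PP Q ∣ Q.factorial := SQF_PP_dvd Q
  have hPpos : 0 < PP Q := SQF_PP_pos Q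
  have hKpos : 0 < K := by
    rcases Nat.eq_zero_or_pos K with h | h
    · rw [h] at hK
      have := Nat.factorial_pos Q
      omega
    · exact h
  obtain ⟨c', key⟩ := SQF2_key Q c K hK hKpos
  have hKR : (K : ℝ) ≠ 0 := by exact_mod_cast hKpos.ne'
  have hPR : (PP Q : ℝ) ≠ 0 := by exact_mod_cast hPpos.ne'
  refine ⟨c', ?_, ?_, ?_⟩
  · intro F hF
    have hF' : ∀ n k : ℕ, F (n + k * PP Q) = F n := by
      intro n k
      rw [← hF (n + k * PP Q), mul_comm k, Nat.add_mul_mod_self_left, hF]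
    unfold mP mQ
    rw [hK, SQF_sum_mul, Finset.sum_comm]
    have h1 : ∑ n ∈ range (PP Q), ws Q c' n * F n =
        (∑ n ∈ range (PP Q), ∑ k ∈ range K, wt Q c (n + k * PP Q) * F (n + k * PP Q)) / (K : ℝ) := by
      rw [Finset.sum_div]
      apply Finset.sum_congr rfl
      intro n _
      rw [key n]
      simp only [hF']
      rw [← Finset.sum_mul]
      ring
    rw [h1]
    push_cast
    field_simp
  · intro h n
    rw [key n]
    exact div_nonneg (Finset.sum_nonneg fun k _ => h _) (Nat.cast_nonneg _)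
  · intro T hT hneg n hn
    rw [key n]
    apply div_nonpos_of_nonpos_of_nonneg _ (by positivity)
    apply Finset.sum_nonpos
    intro k _
    apply hneg
    rw [hT]
    have : (n + k * PP Q) % PP Q = n % PP Q := by
      rw [mul_comm k, Nat.add_mul_mod_self_left]
    rw [this]
    exact (hT n).1 hn

end Pool.Agent.N422.EH
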