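import Pool.Agent.N422.LR.Stm
import Pool.Agent.N422.LG.Stm3

/-! Project EH (helper422): progressions `a mod n` whose modulus `n` carries a sieve weight of level `Q`: definitions and
statements of the self-contained pieces. -/

set_option autoImplicit false

open Finset

namespace Pool.Agent.N422.EH

open Pool.Agent.N422.NW Pool.Agent.N422.SL Pool.Agent.N422.WS Pool.Agent.N422.LG Pool.Agent.N422.LR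

/-- squarefree moduli, general form (EH/SQF2) -/
def S_SQF2 : Prop := ∀ (Q : ℕ) (c : ℕ → ℕ → ℝ), 1 ≤ Q → ∃ c' : ℕ → ℕ → ℝ,
  (∀ F : ℕ → ℝ, (∀ n, F (n % PP Q) = F n) →
    mP Q (fun n => ws Q c' n * F n) = mQ Q (fun n => wt Q c n * F n)) ∧
  ((∀ n, 0 ≤ wt Q c n) → ∀ n, 0 ≤ ws Q c' n) ∧
  ∀ T : Set ℕ, (∀ n, n ∈ T ↔ n % PP Q ∈ T) → (∀ n ∈ T, wt Q c n ≤ 0) → ∀ n ∈ T, ws Q c' n ≤ 0

/-- back to all moduli (EH/BACK) -/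
def S_BACK : Prop := ∀ (Q : ℕ) (c : ℕ → ℕ → ℝ), 1 ≤ Q → (∃ c' : ℕ → ℕ → ℝ, ∀ n, wt Q c' n = ws Q c n) ∧
  ∀ F : ℕ → ℝ, (∀ n, F (n % PP Q) = F n) → mQ Q F = mP Q F

/-- change of variables (EH/PERM) -/
def S_PERM : Prop := ∀ (Q : ℕ) (c : ℕ → ℕ → ℝ) (τ : ℕ → ℕ → ℕ) (T : ℕ → ℕ), 1 ≤ Q →
  (∀ p ∈ (Icc 1 Q).filter Nat.Prime, Set.BijOn (τ p) (Set.Iio p) (Set.Iio p)) →
  (∀ n, ∀ p ∈ (Icc 1 Q).filter Nat.Prime, T n % p = τ p (n % p)) → ∃ c' : ℕ → ℕ → ℝ,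
  (∀ n', ∃ n, T n % PP Q = n' % PP Q ∧ ws Q c' n' = ws Q c n) ∧
  ∀ F : ℕ → ℝ, (∀ n, F (n % PP Q) = F n) →
    mP Q (fun n => ws Q c' n * F n) = mP Q (fun n => ws Q c n * F (T n))

/-- the `h ≤ U` for which `a + h n` has no prime factor `≤ z` -/
def SE (a U z n : ℕ) : Finset ℕ := (Icc 1 U).filter (fun h => ∀ p ∈ (Icc 1 z).filter Nat.Prime, ¬ p ∣ a + h * n)

/-- the density of these `h`, for `n` prime to `a` -/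
noncomputable def GG (z n : ℕ) : ℝ := ∏ p ∈ ((Icc 1 z).filter Nat.Prime).filter (fun p => ¬ p ∣ n), (1 - 1 / (p : ℝ))

/-- the fundamental lemma (EH/FUNDE) -/
def S_FUNDE : Prop := ∃ C : ℕ, 1 ≤ C ∧ ∀ b : ℕ, ∃ y0 : ℕ, ∀ y : ℕ, y0 ≤ y → ∀ U : ℕ, y ^ (C * (b + 1)) ≤ U →
  ∀ a n : ℕ, (∀ p ∈ (Icc 1 y).filter Nat.Prime, p ∣ n → ¬ p ∣ a) →
  |((SE a U y n).card : ℝ) - U * GG y n| ≤ (1 / 2 : ℝ) ^ b * (U * GG y n)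

/-- the recursion for general initial sets (EH/RECG) -/
def S_RECG : Prop := ∀ (Q U y : ℕ) (δ : ℝ) (c : ℕ → ℕ → ℝ) (S : ℕ → Finset ℕ), 2 ≤ y → y ≤ Q → 0 < δ → δ ≤ 1 / 16 →
  1 / (y : ℝ) ≤ δ → (∀ n, S (n + PP y) = S n) → (∀ n, S n ⊆ Icc 1 U) → (∀ n, 0 ≤ wt Q c n) →
  Real.exp (-((1 + 8 * δ) * ∑ p ∈ PQ Q y, 1 / (p : ℝ))) * mQ Q (fun n => wt Q c n * ((S n).card : ℝ)) -
      ((∑ p ∈ PQ Q y, 1 / (p : ℝ)) / δ + 1) * ((U / y + 1) * (20 * (Real.log Q / Real.log y) / δ)) * mQ Q (wt Q c) ≤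
    mQ Q (fun n => wt Q c n * ((left (PQ Q y) (S n) n).card : ℝ)) ∧
  mQ Q (fun n => wt Q c n * ((left (PQ Q y) (S n) n).card : ℝ)) ≤
    Real.exp (-((1 - 3 * δ) * ∑ p ∈ PQ Q y, 1 / (p : ℝ))) * mQ Q (fun n => wt Q c n * ((S n).card : ℝ)) +
      ((∑ p ∈ PQ Q y, 1 / (p : ℝ)) / δ + 1) * ((U / y + 1) * (2 * (Real.log Q / Real.log y) / δ)) * mQ Q (wt Q c)

/-- the sum of `1/p` over the primes `p > y` dividing `n` -/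
noncomputable def XX (Q y n : ℕ) : ℝ := ∑ p ∈ (PQ Q y).filter (fun p => p ∣ n), 1 / (p : ℝ)

/-- few large prime factors (EH/XB) -/
def S_XB : Prop := ∀ (Q y : ℕ) (c : ℕ → ℕ → ℝ), 2 ≤ y → y ≤ Q → (∀ n, 0 ≤ wt Q c n) →
  mQ Q (fun n => wt Q c n * XX Q y n) ≤
    (1 / y) * (2 * (∑ p ∈ PQ Q y, 1 / (p : ℝ)) + 60 * (Real.log Q / Real.log y)) * mQ Q (wt Q c)

/-- the progressions, between the scales (EH/EHM) -/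
def S_EHM : Prop := ∀ (Q U y a : ℕ) (δ : ℝ) (c : ℕ → ℕ → ℝ), 1 ≤ a → a ≤ y → 2 ≤ y → y ≤ Q → 0 < δ → δ ≤ 1 / 16 →
  1 / (y : ℝ) ≤ δ → (∀ n, 0 ≤ wt Q c n) →
  Real.exp (-((1 + 8 * δ) * ∑ p ∈ PQ Q y, 1 / (p : ℝ))) * mQ Q (fun n => wt Q c n * ((SE a U y n).card : ℝ)) -
      ((∑ p ∈ PQ Q y, 1 / (p : ℝ)) / δ + 1) * ((U / y + 1) * (20 * (Real.log Q / Real.log y) / δ)) * mQ Q (wt Q c) ≤
    mQ Q (fun n => wt Q c n * ((SE a U Q n).card : ℝ)) ∧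
  mQ Q (fun n => wt Q c n * ((SE a U Q n).card : ℝ)) ≤
    Real.exp (-((1 - 3 * δ) * ∑ p ∈ PQ Q y, 1 / (p : ℝ))) * mQ Q (fun n => wt Q c n * ((SE a U y n).card : ℝ)) +
      ((∑ p ∈ PQ Q y, 1 / (p : ℝ)) / δ + 1) * ((U / y + 1) * (2 * (Real.log Q / Real.log y) / δ)) * mQ Q (wt Q c) +
      U * mQ Q (fun n => wt Q c n * XX Q y n)

/-- the law for progressions (EH/EHF) -/
def S_EHF : Prop := ∃ C : ℕ, 1 ≤ C ∧ ∀ b a : ℕ, 1 ≤ a → ∃ Q0 : ℕ, ∀ Q : ℕ, Q0 ≤ Q → ∀ U : ℕ,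
  Real.log Q ^ (C * (b + 1)) ≤ U → ∀ c : ℕ → ℕ → ℝ, (∀ n, 0 ≤ wt Q c n) → (∀ n, ¬ Nat.Coprime n a → wt Q c n = 0) →
  |mQ Q (fun n => wt Q c n * ((SE a U Q n).card : ℝ)) - U * mQ Q (fun n => wt Q c n * GG Q n)| ≤
    (1 / 2 : ℝ) ^ b * (U * mQ Q (fun n => wt Q c n * GG Q n))

/-- real weights in the modulus (EH/EHC) -/
def S_EHC (e : ℝ) : Prop := ∀ ε : ℝ, 0 < ε → ∀ a : ℕ, 1 ≤ a → ∃ Q0 : ℕ, ∀ Q : ℕ, Q0 ≤ Q → ∀ U : ℕ,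
  Real.log Q ^ (e + ε) ≤ U → ∀ c : ℕ → ℕ → ℝ, (∀ n, ¬ Nat.Coprime n a → wt Q c n ≤ 0) →
  (∀ n, (SE a U Q n).Nonempty → wt Q c n ≤ 0) → mQ Q (wt Q c) ≤ 0

end Pool.Agent.N422.EH
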